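import Mathlib

set_option autoImplicit false
open Finset

namespace Pool.Agent.H.MP_467fc0_an
open PowerSeries

/-- the series of `exp (a s)` -/
noncomputable def ex {R : Type*} [CommRing R] [Algebra ℚ R] (a : R) : R⟦X⟧ := rescale a (exp R)

lemma coeff_ex {R : Type*} [CommRing R] [Algebra ℚ R] (a : R) (k : ℕ) :
    coeff k (ex a) = (1 / (k.factorial : ℚ)) • a ^ k := by
  simp [ex, coeff_rescale, coeff_exp, Algebra.smul_def, mul_comm]

lemma ex_add {R : Type*} [CommRing R] [Algebra ℚ R] (a b : R) : ex (a + b) = ex a * ex b :=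
  (exp_mul_exp_eq_exp_add a b).symm

lemma ex_zero {R : Type*} [CommRing R] [Algebra ℚ R] : ex (0 : R) = 1 := by
  ext k
  rw [coeff_ex, coeff_one]
  cases k <;> simp

lemma d_ex (c : ℚ) : d⁄dX ℚ (ex c) = C c * ex c := by
  ext k
  rw [coeff_derivative, coeff_C_mul, coeff_ex, coeff_ex, Nat.factorial_succ]
  have : (k.factorial : ℚ) ≠ 0 := by positivity
  simp only [smul_eq_mul]; push_cast; field_simp; ring

lemma lemE (S : Finset ℚ) : ∀ (N : ℕ) (n : ℚ → ℕ) (h : ℚ → ℚ⟦X⟧), ∑ c ∈ S, n c = N →
    (∀ c ∈ S, ∀ l, n c ≤ l → coeff l (h c) = 0) →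
    (∀ l < N, coeff l (∑ c ∈ S, h c * ex c) = 0) → ∀ c ∈ S, h c = 0 := by
  intro N
  induction N with
  | zero =>
    intro n h hn h1 _ c hc
    ext l
    exact h1 c hc l (by rw [Finset.sum_eq_zero_iff.mp hn c hc]; exact Nat.zero_le _)
  | succ N ih =>
    intro n h hn h1 h2
    obtain ⟨c0, hc0, hp⟩ : ∃ c0 ∈ S, n c0 ≠ 0 := by
      by_contra hh
      push Not at hh
      rw [Finset.sum_eq_zero hh] at hn
      omega
    have key := ih (Function.update n c0 (n c0 - 1)) (fun c => d⁄dX ℚ (h c) + C (c - c0) * h c)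
      (by
        rw [Finset.sum_update_of_mem hc0]
        rw [← Finset.add_sum_erase _ _ hc0] at hn
        rw [Finset.sdiff_singleton_eq_erase]; omega)
      (by
        intro c hc l hl
        rw [map_add, coeff_derivative, coeff_C_mul]
        by_cases e : c = c0
        · subst e
          rw [Function.update_self] at hl
          rw [h1 c hc _ (by omega)]; simp
        · rw [Function.update_of_ne e] at hl
          rw [h1 c hc _ (by omega), h1 c hc _ hl]; simp)
      (by
        intro l hl
        have : ∑ c ∈ S, (d⁄dX ℚ (h c) + C (c - c0) * h c) * ex c =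
            d⁄dX ℚ (∑ c ∈ S, h c * ex c) - C c0 * ∑ c ∈ S, h c * ex c := by
          rw [map_sum, Finset.mul_sum, ← Finset.sum_sub_distrib]
          refine Finset.sum_congr rfl fun c _ => ?_
          rw [Derivation.leibniz, d_ex, map_sub]
          simp only [smul_eq_mul]; ring
        rw [this, map_sub, coeff_derivative, coeff_C_mul, h2 _ (by omega), h2 _ (by omega)]; simp)
    have k2 : ∀ c ∈ S, ∀ l, coeff (l + 1) (h c) * (l + 1) + (c - c0) * coeff l (h c) = 0 := by
      intro c hc l
      have := congrArg (coeff l) (key c hc)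
      rwa [map_add, coeff_derivative, coeff_C_mul, map_zero] at this
    have k3 : ∀ c ∈ S, c ≠ c0 → h c = 0 := by
      intro c hc e
      have : ∀ k l, n c ≤ l + k → coeff l (h c) = 0 := by
        intro k
        induction k with
        | zero => exact fun l hl => h1 c hc l hl
        | succ k ik =>
          intro l hl
          have := k2 c hc l
          rw [ik (l + 1) (by omega)] at this
          simpa [sub_eq_zero, e] using this
      ext l
      exact this (n c) l (by omega)
    intro c hc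
    by_cases e : c = c0
    · subst e
      ext l
      cases l with
      | zero =>
        have := h2 0 (by omega)
        rw [Finset.sum_eq_single c (fun b hb hbc => by rw [k3 b hb hbc, zero_mul])
          (fun hh => absurd hc hh), coeff_mul] at this
        simpa [coeff_ex] using this
      | succ l =>
        have := k2 c hc l
        have hl : ((l : ℚ) + 1) ≠ 0 := by positivity
        simpa [hl] using this
    · exact k3 c hc e

lemma lemE' (S : Finset ℚ) (ρ : ℕ) (n : ℚ → ℕ) (h : ℚ → ℚ⟦X⟧)
    (h1 : ∀ c ∈ S, ∀ l, coeff l (h c) ≠ 0 → ρ ≤ l ∧ l < ρ + n c)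
    (h2 : ∀ l < ρ + ∑ c ∈ S, n c, coeff l (∑ c ∈ S, h c * ex c) = 0) : ∀ c ∈ S, h c = 0 := by
  have hd : ∀ c, ∃ g : ℚ⟦X⟧, c ∈ S → h c = X ^ ρ * g := fun c => by
    by_cases hc : c ∈ S
    · obtain ⟨g, hg⟩ := X_pow_dvd_iff.mpr (fun m hm => by
        by_contra hh
        exact absurd (h1 c hc m hh).1 (by omega) : ∀ m < ρ, coeff m (h c) = 0)
      exact ⟨g, fun _ => hg⟩
    · exact ⟨0, fun hh => absurd hh hc⟩
  choose g hg using hd
  have := lemE S _ n g rfl (fun c hc l hl => by
      by_contra hh
      have := h1 c hc (l + ρ) (by rw [hg c hc, coeff_X_pow_mul]; exact hh)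
      omega)
    (fun l hl => by
      have := h2 (l + ρ) (by omega)
      rwa [Finset.sum_congr rfl (fun c hc => by rw [hg c hc, mul_assoc]), ← Finset.mul_sum,
        coeff_X_pow_mul] at this)
  intro c hc
  rw [hg c hc, this c hc, mul_zero]

/-- the exponential sum -/
noncomputable def FF {ι : Type*} (I : Finset ι) (p : ι → Polynomial ℚ) (A : ι → ℚ⟦X⟧) :
    (Polynomial ℚ)⟦X⟧ :=
  ∑ i ∈ I, map Polynomial.C (A i) * ex (p i)

lemma coeff_FF {ι : Type*} (I : Finset ι) (p : ι → Polynomial ℚ) (A : ι → ℚ⟦X⟧) (l : ℕ) :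
    coeff l (FF I p A) = ∑ i ∈ I, ∑ x ∈ antidiagonal l,
      (coeff x.1 (A i) * (1 / (x.2.factorial : ℚ))) • p i ^ x.2 := by
  rw [FF, map_sum]
  refine Finset.sum_congr rfl fun i _ => ?_
  rw [coeff_mul]
  refine Finset.sum_congr rfl fun x _ => ?_
  rw [coeff_map, coeff_ex, ← Polynomial.smul_eq_C_mul, smul_smul]

lemma deg_FF {ι : Type*} (I : Finset ι) (p : ι → Polynomial ℚ) (A : ι → ℚ⟦X⟧) (m ρ : ℕ)
    (hp : ∀ i ∈ I, (p i).natDegree ≤ m) (hA : ∀ i ∈ I, ∀ j < ρ, coeff j (A i) = 0) (l : ℕ)
    (hl : coeff l (FF I p A) ≠ 0) : ρ ≤ l ∧ (coeff l (FF I p A)).natDegree + m * ρ ≤ m * l := by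
  have h1 : ρ ≤ l := by
    by_contra hh
    refine hl ?_
    rw [coeff_FF]
    refine Finset.sum_eq_zero fun i hi => Finset.sum_eq_zero fun x hx => ?_
    rw [hA i hi _ (by have := mem_antidiagonal.mp hx; omega)]; simp
  refine ⟨h1, ?_⟩
  obtain ⟨e, rfl⟩ := Nat.exists_eq_add_of_le h1
  have : (coeff (ρ + e) (FF I p A)).natDegree ≤ m * e := by
    rw [coeff_FF]
    refine Polynomial.natDegree_sum_le_of_forall_le _ _ fun i hi =>
      Polynomial.natDegree_sum_le_of_forall_le _ _ fun x hx => ?_
    by_cases hj : x.1 < ρ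
    · rw [hA i hi _ hj]; simp
    · refine (Polynomial.natDegree_smul_le _ _).trans (Polynomial.natDegree_pow_le.trans ?_)
      have := mem_antidiagonal.mp hx
      rw [mul_comm]
      exact Nat.mul_le_mul (hp i hi) (by omega)
  rw [mul_add]; omega

theorem claimZ {ι : Type*} [DecidableEq ι] (A : ι → ℚ⟦X⟧) : ∀ (m : ℕ) (I : Finset ι)
    (p : ι → Polynomial ℚ) (r : ℕ), (∀ i ∈ I, (p i).natDegree ≤ m) →
    (∀ i ∈ I, ∀ j ∈ I, i ≠ j → 0 < (p i - p j).natDegree) →
    (∃ i ∈ I, ∃ j ≤ r, coeff j (A i) ≠ 0) →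
    ∃ l0 < r + I.card, coeff l0 (FF I p A) ≠ 0 ∧ ∀ l, coeff l (FF I p A) ≠ 0 →
      (coeff l (FF I p A)).natDegree + m * l0 ≤ (coeff l0 (FF I p A)).natDegree + m * l := by
  intro m
  induction m with
  | zero =>
    rintro I p r hp hd ⟨i, hi, j, hj, hA⟩
    have hI : I = {i} := by
      refine Finset.eq_singleton_iff_unique_mem.mpr ⟨hi, fun k hk => ?_⟩
      by_contra e
      have := hd k hk i hi e
      have h2 := Polynomial.natDegree_sub_le (p k) (p i)
      have := hp k hk
      have := hp i hi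
      omega
    have : ∃ l0 ≤ r, coeff l0 (FF I p A) ≠ 0 := by
      by_contra hh
      push Not at hh
      have e : map Polynomial.C (A i) = FF I p A * ex (-p i) := by
        rw [hI, FF, Finset.sum_singleton, mul_assoc, ← ex_add, add_neg_cancel, ex_zero, mul_one]
      have e2 := congrArg (coeff j) e
      rw [coeff_map, coeff_mul, Finset.sum_eq_zero (fun x hx => by
        rw [hh x.1 (by have := mem_antidiagonal.mp hx; omega), zero_mul])] at e2
      exact hA (Polynomial.C_eq_zero.mp e2)
    obtain ⟨l0, h0, h1⟩ := this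
    refine ⟨l0, by rw [hI]; simp; omega, h1, fun l hl => ?_⟩
    have := (deg_FF I p A 0 0 hp (by simp) l hl).2
    omega
  | succ m ih =>
    rintro I p r hp hd ⟨i0, hi0, j0, hj0, hA0⟩
    set M := m + 1 with hM
    have hMl : ∀ l, M * l = m * l + l := fun l => by rw [hM]; ring
    let cf : ι → ℚ := fun i => (p i).coeff M
    let p' : ι → Polynomial ℚ := fun i => p i - Polynomial.monomial M (cf i)
    let J : ℚ → Finset ι := fun c => I.filter fun i => cf i = c
    let S := I.image cf
    let G : ℚ → (Polynomial ℚ)⟦X⟧ := fun c => FF (J c) p' A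
    have hp' : ∀ c, ∀ i ∈ J c, (p' i).natDegree ≤ m := by
      intro c i hi
      have hi' := (Finset.mem_filter.mp hi).1
      refine Polynomial.natDegree_le_iff_coeff_eq_zero.mpr fun N hN => ?_
      simp only [p', Polynomial.coeff_sub, Polynomial.coeff_monomial, cf]
      split_ifs with e
      · rw [e, sub_self]
      · rw [Polynomial.coeff_eq_zero_of_natDegree_lt (by have := hp i hi'; omega), sub_zero]
    have hd' : ∀ c, ∀ i ∈ J c, ∀ j ∈ J c, i ≠ j → 0 < (p' i - p' j).natDegree := by
      intro c i hi j hj e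
      obtain ⟨a1, a2⟩ := Finset.mem_filter.mp hi
      obtain ⟨b1, b2⟩ := Finset.mem_filter.mp hj
      have : p' i - p' j = p i - p j := by simp only [p', a2, b2]; ring
      rw [this]; exact hd i a1 j b1 e
    have hF : FF I p A = ∑ c ∈ S, G c * ex (Polynomial.monomial M c) := by
      rw [FF, ← Finset.sum_fiberwise_of_maps_to (g := cf) (t := S)
        (fun i hi => Finset.mem_image_of_mem _ hi)]
      refine Finset.sum_congr rfl fun c _ => ?_
      simp only [G, FF, Finset.sum_mul]
      refine Finset.sum_congr rfl fun i hi => ?_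
      rw [mul_assoc, ← ex_add, ← (Finset.mem_filter.mp hi).2]
      simp [p']
    have hG0 : ∀ c l, coeff l (G c) ≠ 0 → (coeff l (G c)).natDegree ≤ m * l := fun c l hl => by
      simpa using (deg_FF (J c) p' A m 0 (hp' c) (by simp) l hl).2
    have hβ : i0 ∈ J (cf i0) := Finset.mem_filter.mpr ⟨hi0, rfl⟩
    obtain ⟨lβ, hβ1, hβ2, hβ3⟩ := ih (J (cf i0)) p' r (hp' _) (hd' _) ⟨i0, hβ, j0, hj0, hA0⟩
    have hex : ∃ μ, ∃ c ∈ S, ∃ l, coeff l (G c) ≠ 0 ∧ (coeff l (G c)).natDegree + μ = M * l :=
      ⟨M * lβ - (coeff lβ (G (cf i0))).natDegree, cf i0, Finset.mem_image_of_mem _ hi0, lβ, hβ2, by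
        have := hG0 _ _ hβ2
        rw [hM, add_mul] ; omega⟩
    classical
    obtain ⟨μ, ⟨c1, hc1, l1, hl1, hl1'⟩, hμ⟩ : ∃ μ, (∃ c ∈ S, ∃ l, coeff l (G c) ≠ 0 ∧
        (coeff l (G c)).natDegree + μ = M * l) ∧ ∀ c ∈ S, ∀ l, coeff l (G c) ≠ 0 →
          (coeff l (G c)).natDegree + μ ≤ M * l := by
      refine ⟨Nat.find hex, Nat.find_spec hex, fun c hc l hl => ?_⟩
      have := hG0 _ _ hl
      have h2 := Nat.find_min' hex (m := M * l - (coeff l (G c)).natDegree) ⟨c, hc, l, hl, by
        rw [hM, add_mul]; omega⟩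
      have := hMl l
      omega
    have hex2 : ∃ ρ, μ ≤ M * ρ := ⟨μ, by rw [hM, add_mul]; omega⟩
    obtain ⟨ρ, hρ1, hρ2⟩ : ∃ ρ, μ ≤ M * ρ ∧ ∀ l, μ ≤ M * l → ρ ≤ l :=
      ⟨Nat.find hex2, Nat.find_spec hex2, fun l hl => Nat.find_min' hex2 hl⟩
    let h : ℚ → ℚ⟦X⟧ := fun c =>
      mk fun l => if μ ≤ M * l then (coeff l (G c)).coeff (M * l - μ) else 0
    have hh : ∀ c ∈ S, ∀ l, coeff l (h c) ≠ 0 →
        coeff l (G c) ≠ 0 ∧ (coeff l (G c)).natDegree + μ = M * l := by
      intro c hc l hl
      simp only [h, coeff_mk] at hl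
      split_ifs at hl with e
      · have h1 : coeff l (G c) ≠ 0 := fun e => hl (by rw [e]; simp)
        have := Polynomial.le_natDegree_of_ne_zero hl
        have := hμ c hc l h1
        exact ⟨h1, by omega⟩
      · exact absurd rfl hl
    have hup : ∀ c ∈ S, ∀ r', (∃ i ∈ J c, ∃ j ≤ r', coeff j (A i) ≠ 0) → ∀ l,
        coeff l (h c) ≠ 0 → l < r' + (J c).card := by
      intro c hc r' hr l hl
      obtain ⟨lc, a1, a2, a3⟩ := ih (J c) p' r' (hp' _) (hd' _) hr
      obtain ⟨b1, b2⟩ := hh c hc l hl
      have := a3 l b1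
      have := hμ c hc lc a2
      simp only [G] at *
      rw [hM, add_mul] at *
      omega
    have hρβ : ρ ≤ lβ := hρ2 _ (by
      have := hμ _ (Finset.mem_image_of_mem _ hi0) _ hβ2
      omega)
    let n : ℚ → ℕ := Function.update (fun c => (J c).card) (cf i0) (r + (J (cf i0)).card - ρ)
    have hn : ρ + ∑ c ∈ S, n c = r + I.card := by
      have hm : cf i0 ∈ S := Finset.mem_image_of_mem _ hi0
      rw [Finset.sum_update_of_mem hm, Finset.card_eq_sum_card_image cf I,
        ← Finset.add_sum_erase _ _ hm, Finset.sdiff_singleton_eq_erase]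
      simp only [J] at hβ1 ⊢
      omega
    have hcoef : ∀ l j, μ ≤ j + μ → M * l ≤ j + μ →
        (coeff l (FF I p A)).coeff j =
          if j + μ = M * l then coeff l (∑ c ∈ S, h c * ex c) else 0 := by
      intro l j _ hj
      have t : ∀ c ∈ S, ∀ x ∈ antidiagonal l,
          (coeff x.1 (G c) * coeff x.2 (ex (Polynomial.monomial M c))).coeff j =
            if j + μ = M * l then coeff x.1 (h c) * coeff x.2 (ex c) else 0 := by
        intro c hc x hx
        have hx' := mem_antidiagonal.mp hx
        have e1 : M * l = M * x.1 + M * x.2 := by rw [← hx', mul_add]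
        rw [coeff_ex, coeff_ex, Polynomial.monomial_pow, ← Polynomial.C_mul_X_pow_eq_monomial,
          mul_smul_comm, Polynomial.coeff_smul, ← mul_assoc, Polynomial.coeff_mul_X_pow',
          Polynomial.coeff_mul_C]
        simp only [h, coeff_mk, smul_eq_mul]
        by_cases e : j + μ = M * l
        · rw [if_pos e]
          by_cases e2 : M * x.2 ≤ j
          · rw [if_pos e2, if_pos (by omega), show M * x.1 - μ = j - M * x.2 by omega]; ring
          · rw [if_neg e2, if_neg (by omega)]; simp
        · rw [if_neg e]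
          by_cases e2 : M * x.2 ≤ j
          · rw [if_pos e2]
            by_cases e3 : coeff x.1 (G c) = 0
            · rw [e3]; simp
            · have := hμ c hc _ e3
              rw [Polynomial.coeff_eq_zero_of_natDegree_lt (by omega)]; simp
          · rw [if_neg e2]; simp
      rw [hF, map_sum, Polynomial.finsetSum_coeff, map_sum]
      simp only [coeff_mul, Polynomial.finsetSum_coeff]
      rw [Finset.sum_congr rfl fun c hc => Finset.sum_congr rfl fun x hx => t c hc x hx]
      split_ifs <;> simp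
    obtain ⟨l0, a1, a2⟩ : ∃ l0 < r + I.card, coeff l0 (∑ c ∈ S, h c * ex c) ≠ 0 := by
      by_contra e
      push Not at e
      have := lemE' S ρ n h (fun c hc l hl => by
        obtain ⟨b1, b2⟩ := hh c hc l hl
        refine ⟨hρ2 _ (by omega), ?_⟩
        by_cases ec : c = cf i0
        · subst ec
          have := hup _ hc r ⟨i0, hβ, j0, hj0, hA0⟩ l hl
          simp only [n, Function.update_self]; omega
        · simp only [n, Function.update_of_ne ec]
          refine hup c hc ρ ?_ l hl
          by_contra e2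
          push Not at e2
          have := deg_FF (J c) p' A m (ρ + 1) (hp' c) (fun i hi j hj => e2 i hi j (by omega)) l b1
          simp only [G] at b2
          rw [hM, add_mul] at *
          rw [mul_add] at this
          omega) (by rw [hn]; exact e) c1 hc1
      have e3 := congrArg (coeff l1) this
      simp only [h, coeff_mk, map_zero] at e3
      rw [if_pos (by omega), show M * l1 - μ = (coeff l1 (G c1)).natDegree by omega] at e3
      exact hl1 (Polynomial.leadingCoeff_eq_zero.mp e3)
    have hbd : ∀ l, coeff l (FF I p A) ≠ 0 → (coeff l (FF I p A)).natDegree + μ ≤ M * l := by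
      intro l hl
      by_contra e
      have := hcoef l (coeff l (FF I p A)).natDegree (by omega) (by omega)
      rw [if_neg (by omega)] at this
      exact hl (Polynomial.leadingCoeff_eq_zero.mp this)
    have hμ0 : μ ≤ M * l0 := by
      by_contra e
      refine a2 ?_
      rw [map_sum]
      refine Finset.sum_eq_zero fun c hc => ?_
      rw [coeff_mul]
      refine Finset.sum_eq_zero fun x hx => ?_
      have := mem_antidiagonal.mp hx
      have h3 : M * x.1 ≤ M * l0 := Nat.mul_le_mul_left _ (by omega)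
      simp only [h, coeff_mk]
      rw [if_neg (by omega), zero_mul]
    have e4 := hcoef l0 (M * l0 - μ) (by omega) (by omega)
    rw [if_pos (by omega)] at e4
    rw [← e4] at a2
    have a3 : coeff l0 (FF I p A) ≠ 0 := fun e => a2 (by rw [e]; simp)
    refine ⟨l0, a1, a3, fun l hl => ?_⟩
    have := Polynomial.le_natDegree_of_ne_zero a2
    have := hbd l hl
    omega

lemma poly_zero (P : Polynomial ℚ) (h : ∀ x : ℤ, P.eval (x : ℚ) = 0) : P = 0 :=
  Polynomial.eq_zero_of_infinite_isRoot P (Set.infinite_of_injective_forall_mem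
    (f := fun x : ℤ => (x : ℚ)) Int.cast_injective h)

/-- the degree bound for algebraic relations -/
theorem alg {ι : Type*} [Fintype ι] [DecidableEq ι] (p Q : ι → Polynomial ℚ)
    (hd : ∀ i j, i ≠ j → 0 < (p i - p j).natDegree)
    (h : ∀ x y : ℤ, ∑ i, (Q i).eval ((x : ℚ) + (p i).eval (y : ℚ)) = 0)
    (hc : 2 ≤ Fintype.card ι) (i : ι) : (Q i).natDegree + 2 ≤ Fintype.card ι := by
  obtain ⟨i0, -, hi0⟩ := Finset.exists_max_image Finset.univ (fun i => (Q i).natDegree)
    ⟨i, Finset.mem_univ _⟩
  by_contra hh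
  set D := (Q i0).natDegree with hD
  have hiD := hi0 i (Finset.mem_univ _)
  have h1 : ∀ e, ∑ i, (Polynomial.hasseDeriv e (Q i)).comp (p i) = 0 := by
    intro e
    refine poly_zero _ fun y => ?_
    have : ∑ i, Polynomial.taylor ((p i).eval (y : ℚ)) (Q i) = 0 := by
      refine poly_zero _ fun x => ?_
      rw [Polynomial.eval_finsetSum]
      simpa only [Polynomial.taylor_eval] using h x y
    have := congrArg (fun P => Polynomial.coeff P e) this
    simp only [Polynomial.finsetSum_coeff, Polynomial.taylor_coeff, Polynomial.coeff_zero] at this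
    rw [Polynomial.eval_finsetSum]
    simpa only [Polynomial.eval_comp] using this
  let A : ι → ℚ⟦X⟧ := fun i => mk fun j => ((D - j).factorial : ℚ) * (Q i).coeff (D - j)
  obtain ⟨l0, a1, a2, -⟩ := claimZ A (Finset.univ.sup fun i => (p i).natDegree) Finset.univ p 0
    (fun i hi => Finset.le_sup (f := fun i => (p i).natDegree) hi) (fun i _ j _ e => hd i j e)
    ⟨i0, Finset.mem_univ _, 0, le_rfl, by
      simp only [A, coeff_mk, Nat.sub_zero]
      refine mul_ne_zero (by positivity) fun e => ?_
      have := Polynomial.leadingCoeff_eq_zero.mp e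
      rw [this] at hD
      simp at hD
      omega⟩
  refine a2 ?_
  rw [Finset.card_univ] at a1
  obtain ⟨e, he⟩ : ∃ e, D = l0 + e := Nat.exists_eq_add_of_le (by omega)
  have := congrArg (fun P => (e.factorial : ℚ) • P) (h1 e)
  simp only [smul_zero, Finset.smul_sum] at this
  rw [coeff_FF, ← this]
  refine Finset.sum_congr rfl fun i _ => ?_
  have hdeg : (Polynomial.hasseDeriv e (Q i)).natDegree < l0 + 1 := by
    have := Polynomial.natDegree_hasseDeriv_le (Q i) e
    have := hi0 i (Finset.mem_univ _)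
    omega
  rw [Polynomial.comp, Polynomial.eval₂_eq_sum_range' _ hdeg, Finset.smul_sum,
    ← Finset.Nat.sum_antidiagonal_swap, Finset.Nat.sum_antidiagonal_eq_sum_range_succ_mk]
  refine Finset.sum_congr rfl fun k hk => ?_
  have hk' := Finset.mem_range.mp hk
  simp only [A, coeff_mk, Prod.fst_swap, Prod.snd_swap, Polynomial.hasseDeriv_coeff]
  rw [← Polynomial.smul_eq_C_mul, smul_smul, show D - (l0 - k) = k + e by omega,
    ← Nat.add_choose_mul_factorial_mul_factorial]
  have : (k.factorial : ℚ) ≠ 0 := by positivity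
  congr 1
  push_cast; field_simp

end Pool.Agent.H.MP_467fc0_an
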