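import Mathlib

set_option autoImplicit false
open Finset Filter Topology ComplexConjugate

namespace Pool.Agent.H.MP_467fc0_an

/-- Cesaro mean zero -/
def Z0 (u : ℕ → ℂ) : Prop :=
  Tendsto (fun N : ℕ => (N : ℂ)⁻¹ * ∑ n ∈ range N, u n) atTop (𝓝 0)

lemma Z0.add {u v : ℕ → ℂ} (hu : Z0 u) (hv : Z0 v) : Z0 fun n => u n + v n := by
  have := Tendsto.add hu hv
  simpa only [Z0, Finset.sum_add_distrib, mul_add, add_zero] using this

lemma Z0.const_mul {u : ℕ → ℂ} (hu : Z0 u) (c : ℂ) : Z0 fun n => c * u n := by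
  have := Tendsto.const_mul c hu
  simpa only [Z0, ← Finset.mul_sum, mul_zero, mul_left_comm] using this

lemma Z0.zero : Z0 fun _ => 0 := by simp [Z0]

lemma Z0.sum {ι : Type*} (s : Finset ι) {u : ι → ℕ → ℂ} (hu : ∀ i ∈ s, Z0 (u i)) :
    Z0 fun n => ∑ i ∈ s, u i n := by
  classical
  induction s using Finset.induction_on with
  | empty => simpa using Z0.zero
  | insert a s ha ih =>
    simp only [Finset.sum_insert ha]
    exact (hu a (Finset.mem_insert_self _ _)).add (ih fun i hi => hu i (Finset.mem_insert_of_mem hi))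

lemma Z0.star {u : ℕ → ℂ} (hu : Z0 u) : Z0 fun n => conj (u n) := by
  have := (Complex.continuous_conj.tendsto 0).comp hu
  simpa [Z0, Function.comp_def] using this

lemma shift_diff {u : ℕ → ℂ} (hu : ∀ n, ‖u n‖ ≤ 1) (k : ℕ) : Z0 fun n => u (n + k) - u n := by
  refine squeeze_zero_norm (a := fun N : ℕ => (2 * k : ℝ) / N) (fun N => ?_)
    (tendsto_const_div_atTop_nhds_zero_nat _)
  have e : ∑ n ∈ range N, (u (n + k) - u n) = ∑ n ∈ range k, (u (N + n) - u n) := by
    have h1 := Finset.sum_range_add u N k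
    have h2 := Finset.sum_range_add u k N
    rw [add_comm k N, h1] at h2
    simp only [Finset.sum_sub_distrib, add_comm _ k]
    linear_combination -h2
  rw [e, norm_mul, norm_inv, Complex.norm_natCast, div_eq_inv_mul]
  gcongr
  refine (norm_sum_le _ _).trans ((Finset.sum_le_card_nsmul _ _ 2 fun n _ => ?_).trans ?_)
  · exact (norm_sub_le _ _).trans (by linarith [hu (N + n), hu n])
  · simp [mul_comm]

lemma Z0.shift {u : ℕ → ℂ} (h : Z0 u) (hu : ∀ n, ‖u n‖ ≤ 1) (k : ℕ) : Z0 fun n => u (n + k) := by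
  simpa using (shift_diff hu k).add h

theorem vdc {u : ℕ → ℂ} (hu : ∀ n, ‖u n‖ ≤ 1)
    (h : ∀ k, 0 < k → Z0 fun n => u (n + k) * conj (u n)) : Z0 u := by
  have hb : ∀ a b, ‖u a * conj (u b)‖ ≤ 1 := fun a b => by
    rw [norm_mul, Complex.norm_conj]; exact mul_le_one₀ (hu a) (norm_nonneg _) (hu b)
  have off : ∀ a b, Z0 fun n => if a = b then 0 else u (n + a) * conj (u (n + b)) := by
    have : ∀ a b, b < a → Z0 fun n => u (n + a) * conj (u (n + b)) := fun a b hab => by
      obtain ⟨k, rfl⟩ := Nat.exists_eq_add_of_le hab.le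
      simpa only [add_assoc] using (h k (by omega)).shift (fun n => hb _ _) b
    intro a b
    rcases lt_trichotomy a b with e | e | e
    · simpa only [if_neg e.ne, map_mul, Complex.conj_conj, mul_comm] using (this b a e).star
    · simpa only [if_pos e] using Z0.zero
    · simpa only [if_neg e.ne'] using this a b e
  rw [Z0, NormedAddGroup.tendsto_nhds_zero]
  intro ε hε
  obtain ⟨H, hH⟩ := exists_nat_gt (8 / ε ^ 2)
  have H0 : (0 : ℝ) < H := lt_trans (by positivity) hH
  have H0' : (H : ℂ) ≠ 0 := by exact_mod_cast H0.ne'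
  let v : ℕ → ℂ := fun n => ∑ a ∈ range H, u (n + a)
  have h1 : Z0 fun n => (H : ℂ)⁻¹ * v n - u n := by
    have := (Z0.sum (range H) fun a _ => shift_diff hu a).const_mul (H : ℂ)⁻¹
    refine (congrArg Z0 (funext fun n => ?_)).mp this
    simp only [Finset.sum_sub_distrib, Finset.sum_const, card_range, nsmul_eq_mul, v]
    field_simp
  have h2 := Z0.sum (range H) fun a _ => Z0.sum (range H) fun b _ => off a b
  rw [Z0, NormedAddGroup.tendsto_nhds_zero] at h1 h2
  filter_upwards [h1 (ε / 2) (by positivity), h2 H H0, eventually_gt_atTop 0] with N a1 a2 hN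
  have N0 : (0 : ℝ) < N := by exact_mod_cast hN
  have k1 : ∀ n, ‖v n‖ ^ 2 ≤ (∑ a ∈ range H, ∑ b ∈ range H,
      if a = b then 0 else u (n + a) * conj (u (n + b))).re + H := by
    intro n
    have : ((‖v n‖ ^ 2 : ℝ) : ℂ) = (∑ a ∈ range H, ∑ b ∈ range H,
        if a = b then 0 else u (n + a) * conj (u (n + b))) +
          ∑ a ∈ range H, u (n + a) * conj (u (n + a)) := by
      rw [Complex.ofReal_pow, ← Complex.mul_conj', map_sum, Finset.sum_mul_sum,
        ← Finset.sum_add_distrib]
      refine Finset.sum_congr rfl fun a ha => ?_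
      rw [← Finset.sum_ite_eq_of_mem (range H) a (fun b => u (n + a) * conj (u (n + b))) ha,
        ← Finset.sum_add_distrib]
      refine Finset.sum_congr rfl fun b _ => ?_
      split_ifs <;> simp
    have := congrArg Complex.re this
    rw [Complex.ofReal_re, Complex.add_re] at this
    rw [this]
    gcongr
    refine (Complex.re_le_norm _).trans ((norm_sum_le _ _).trans ?_)
    simpa using Finset.sum_le_card_nsmul (range H) _ 1 fun a _ => hb (n + a) (n + a)
  have k2 : ‖(N : ℂ)⁻¹ * ∑ n ∈ range N, v n‖ ^ 2 ≤ 2 * H := by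
    have c1 : ‖∑ n ∈ range N, v n‖ ^ 2 ≤ N * ∑ n ∈ range N, ‖v n‖ ^ 2 := by
      refine (pow_le_pow_left₀ (norm_nonneg _) (norm_sum_le _ _) 2).trans ?_
      simpa using sq_sum_le_card_mul_sum_sq (s := range N) (f := fun n => ‖v n‖)
    have c2 := Finset.sum_le_sum fun n (_ : n ∈ range N) => k1 n
    rw [Finset.sum_add_distrib, ← Complex.re_sum] at c2
    simp only [Finset.sum_const, card_range, nsmul_eq_mul] at c2
    rw [norm_mul, norm_inv, Complex.norm_natCast, inv_mul_lt_iff₀ N0] at a2
    have c3 := (Complex.re_le_norm _).trans a2.le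
    rw [norm_mul, norm_inv, Complex.norm_natCast, mul_pow, inv_pow, inv_mul_le_iff₀ (by positivity)]
    nlinarith
  have k3 : ‖(H : ℂ)⁻¹ * ((N : ℂ)⁻¹ * ∑ n ∈ range N, v n)‖ < ε / 2 := by
    refine lt_of_pow_lt_pow_left₀ 2 (by positivity) ?_
    rw [norm_mul, norm_inv, Complex.norm_natCast, mul_pow, inv_pow, inv_mul_lt_iff₀ (by positivity)]
    rw [div_lt_iff₀ (by positivity)] at hH
    nlinarith
  have e : (N : ℂ)⁻¹ * ∑ n ∈ range N, u n = (H : ℂ)⁻¹ * ((N : ℂ)⁻¹ * ∑ n ∈ range N, v n) -
      (N : ℂ)⁻¹ * ∑ n ∈ range N, ((H : ℂ)⁻¹ * v n - u n) := by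
    rw [Finset.sum_sub_distrib, ← Finset.mul_sum]; ring
  rw [e]
  exact (norm_sub_le _ _).trans_lt (by linarith)

/-- `e(t)` -/
noncomputable def ee (t : ℝ) : ℂ := Complex.exp (2 * Real.pi * Complex.I * t)

lemma ee_add (s t : ℝ) : ee (s + t) = ee s * ee t := by
  simp only [ee, ← Complex.exp_add]; congr 1; push_cast; ring

lemma ee_int (n : ℤ) : ee n = 1 := by
  rw [ee, ← Complex.exp_int_mul_two_pi_mul_I n]; congr 1; push_cast; ring

lemma ee_zero : ee 0 = 1 := by simpa using ee_int 0

lemma norm_ee (t : ℝ) : ‖ee t‖ = 1 := by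
  rw [ee, ← Complex.norm_exp_ofReal_mul_I (2 * Real.pi * t)]; congr 2; push_cast; ring

lemma conj_ee (t : ℝ) : conj (ee t) = ee (-t) := by
  simp only [ee, ← Complex.exp_conj]; congr 1; simp [Complex.conj_ofNat]

lemma ee_ne_one {t : ℝ} (h : Irrational t) : ee t ≠ 1 := by
  intro e
  obtain ⟨n, hn⟩ := Complex.exp_eq_one_iff.mp e
  refine h.ne_int n ?_
  have : (2 * Real.pi * Complex.I : ℂ) ≠ 0 := Complex.two_pi_I_ne_zero
  rw [mul_comm] at hn
  exact_mod_cast mul_right_cancel₀ this hn

theorem weyl : ∀ (d : ℕ) (θ : Polynomial ℝ) (q : ℕ) (g : ℕ → ℂ), θ.natDegree ≤ d →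
    (∃ r, 0 < r ∧ Irrational (θ.coeff r)) → 0 < q → (∀ n, g (n + q) = g n) → (∀ n, ‖g n‖ ≤ 1) →
    Z0 fun n => g n * ee (θ.eval (n : ℝ)) := by
  intro d
  induction d with
  | zero =>
    rintro θ q g hd ⟨r, hr, hi⟩
    rw [Polynomial.coeff_eq_zero_of_natDegree_lt (by omega)] at hi
    exact absurd hi (by simp)
  | succ d ih =>
    rintro θ q g hd ⟨r, hr, hi⟩ hq hg hb
    have hu : ∀ n : ℕ, ‖g n * ee (θ.eval (n : ℝ))‖ ≤ 1 := fun n => by
      rw [norm_mul, norm_ee, mul_one]; exact hb n
    by_cases ha : Irrational (θ.coeff (d + 1))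
    · rcases Nat.eq_zero_or_pos d with rfl | hd0
      · have hθ := Polynomial.eq_X_add_C_of_natDegree_le_one hd
        have h1 := (shift_diff hu q).const_mul (ee (θ.coeff 1 * q) - 1)⁻¹
        have h2 : ee (θ.coeff 1 * q) - 1 ≠ 0 := sub_ne_zero.mpr (ee_ne_one (ha.mul_natCast hq.ne'))
        refine (congrArg Z0 (funext fun n => ?_)).mp h1
        have : θ.eval ((n + q : ℕ) : ℝ) = θ.eval (n : ℝ) + θ.coeff 1 * q := by
          rw [hθ]; simp; ring
        rw [this, ee_add, hg]; field_simp
      · refine vdc hu fun k hk => ?_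
        have := ih (Polynomial.taylor (k : ℝ) θ - θ) q (fun n => g (n + k) * conj (g n))
          (Polynomial.natDegree_le_iff_coeff_eq_zero.mpr fun N hN => by
            rw [Polynomial.coeff_sub, Polynomial.taylor_coeff, sub_eq_zero,
              Polynomial.eq_C_of_natDegree_eq_zero (p := Polynomial.hasseDeriv N θ) (by
                have := Polynomial.natDegree_hasseDeriv_le θ N; omega),
              Polynomial.hasseDeriv_coeff]
            simp)
          ⟨d, hd0, by
            rw [Polynomial.coeff_sub, Polynomial.taylor_coeff,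
              Polynomial.eq_X_add_C_of_natDegree_le_one (p := Polynomial.hasseDeriv d θ) (by
                have := Polynomial.natDegree_hasseDeriv_le θ d; omega),
              Polynomial.hasseDeriv_coeff, Polynomial.hasseDeriv_coeff, add_comm 1 d]
            simp only [Nat.choose_succ_self_right, zero_add, Nat.choose_self, Polynomial.eval_add,
              Polynomial.eval_mul, Polynomial.eval_C, Polynomial.eval_X, Nat.cast_one, one_mul,
              add_sub_cancel_right]
            exact (ha.natCast_mul (by omega)).mul_natCast hk.ne'⟩ hq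
          (fun n => by rw [add_right_comm, hg, hg])
          (fun n => by
            rw [norm_mul, Complex.norm_conj]; exact mul_le_one₀ (hb _) (norm_nonneg _) (hb _))
        refine (congrArg Z0 (funext fun n => ?_)).mp this
        rw [Polynomial.eval_sub, Polynomial.taylor_eval, sub_eq_add_neg, ee_add, map_mul, conj_ee]
        push_cast; ring
    · obtain ⟨a, ha'⟩ : ∃ a : ℚ, (a : ℝ) = θ.coeff (d + 1) := by simpa [Irrational] using ha
      have := ih (θ - Polynomial.monomial (d + 1) (a : ℝ)) (q * a.den)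
        (fun n => g n * ee (a * (n : ℝ) ^ (d + 1)))
        (Polynomial.natDegree_le_iff_coeff_eq_zero.mpr fun N hN => by
          rw [Polynomial.coeff_sub, Polynomial.coeff_monomial]
          split_ifs with e
          · rw [← e, ha', sub_self]
          · rw [Polynomial.coeff_eq_zero_of_natDegree_lt (by omega), sub_zero])
        ⟨r, hr, by
          rw [Polynomial.coeff_sub, Polynomial.coeff_monomial, if_neg (fun e : d + 1 = r => ha (e ▸ hi)),
            sub_zero]
          exact hi⟩ (Nat.mul_pos hq a.den_pos)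
        (fun n => by
          have e1 : g (n + q * a.den) = g n := by
            have : Function.Periodic g q := hg
            simpa [mul_comm] using this.nat_mul a.den n
          obtain ⟨z, hz⟩ := sub_dvd_pow_sub_pow ((n + q * a.den : ℕ) : ℤ) n (d + 1)
          have e2 : (a : ℝ) * ((n + q * a.den : ℕ) : ℝ) ^ (d + 1) =
              a * (n : ℝ) ^ (d + 1) + ((a.num * q * z : ℤ) : ℝ) := by
            have h3 : ((n + q * a.den : ℕ) : ℝ) ^ (d + 1) - (n : ℝ) ^ (d + 1) =
              (((n + q * a.den : ℕ) : ℝ) - n) * z := by exact_mod_cast hz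
            have h4 : (a : ℝ) * a.den = a.num := by exact_mod_cast Rat.mul_den_eq_num a
            push_cast at h3 ⊢
            rw [← h4]; linear_combination (a : ℝ) * h3
          simp only [e1, e2, ee_add, ee_int, mul_one])
        (fun n => by rw [norm_mul, norm_ee, mul_one]; exact hb n)
      refine (congrArg Z0 (funext fun n => ?_)).mp this
      rw [mul_assoc, ← ee_add]; simp

end Pool.Agent.H.MP_467fc0_an
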