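import Mathlib

set_option autoImplicit false
open MeasureTheory Filter
open scoped ENNReal

namespace Pool.Agent.H.MP_467fc0_an

/-- the torus -/
abbrev Tor (D : ℕ) : Type := Fin D → UnitAddCircle

/-- Haar probability measure -/
noncomputable def haar (D : ℕ) : Measure (Tor D) := Measure.pi fun _ => AddCircle.haarAddCircle

/-- square of the first seminorm -/
noncomputable def hk0 {D : ℕ} (T : Equiv.Perm (Tor D)) (f : Tor D → ℂ) : ℝ≥0∞ :=
  eLpNorm (condExp (MeasurableSpace.invariants T) (haar D) f) 2 (haar D) ^ 2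

/-- the recursion step -/
noncomputable def step {D : ℕ} (T : Equiv.Perm (Tor D)) (s : (Tor D → ℂ) → ℝ≥0∞)
    (f : Tor D → ℂ) : ℝ≥0∞ :=
  limsup (fun H : ℕ => (H : ℝ≥0∞)⁻¹ *
    ∑ h ∈ Finset.Icc 1 H, s fun x => (starRingEnd ℂ) (f x) * f ((T ^ h) x)) atTop

/-- `hk T k f` is the `2^(k+1)`-th power of the Host-Kra seminorm of order `k+1` -/
noncomputable def hk {D : ℕ} (T : Equiv.Perm (Tor D)) (k : ℕ) : (Tor D → ℂ) → ℝ≥0∞ :=
  (step T)^[k] (hk0 T)

/-- the polynomial multiple average -/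
noncomputable def avg {D l : ℕ} (T : Equiv.Perm (Tor D)) (P : Fin l → Polynomial ℤ)
    (f : Fin l → Tor D → ℂ) (N : ℕ) (x : Tor D) : ℂ :=
  (N : ℂ)⁻¹ * ∑ n ∈ Finset.Icc 1 N, ∏ i, f i ((T ^ (P i).eval (n : ℤ)) x)

end Pool.Agent.H.MP_467fc0_an
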