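import Pool.Agent.H.MP_467fc0_an.A
import Pool.Agent.H.MP_467fc0_an.B
import Pool.Agent.H.MP_467fc0_an.Defs

set_option autoImplicit false
open Finset Filter Topology ComplexConjugate Polynomial

namespace Pool.Agent.H.MP_467fc0_an

/-- binomial polynomial -/
noncomputable def bin (k : ℕ) : ℚ[X] := C (1 / (k.factorial : ℚ)) * descPochhammer ℚ k

lemma bin_succ (k : ℕ) (t : ℚ) :
    (bin (k + 1)).eval (t + 1) = (bin (k + 1)).eval t + (bin k).eval t := by
  have h1 : (descPochhammer ℚ (k + 1)).eval (t + 1) = (t + 1) * (descPochhammer ℚ k).eval t := by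
    rw [descPochhammer_succ_left]; simp
  have h2 := descPochhammer_succ_eval k t
  simp only [bin, eval_mul, eval_C, h1, h2, Nat.factorial_succ]
  have : (k.factorial : ℚ) ≠ 0 := by positivity
  push_cast; field_simp; ring

lemma zpow_eq {R : Type*} [Ring R] [Algebra ℚ R] (τ : Rˣ) (ν : R) (K : ℕ) (hτ : (τ : R) = 1 + ν)
    (hν : ν ^ K = 0) (t : ℤ) :
    ((τ ^ t : Rˣ) : R) = ∑ k ∈ range (K + 1), (bin k).eval (t : ℚ) • ν ^ k := by
  have h : ∀ t : ℚ, ∑ k ∈ range (K + 1), (bin k).eval (t + 1) • ν ^ k =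
      (∑ k ∈ range (K + 1), (bin k).eval t • ν ^ k) * τ := by
    intro t
    rw [hτ, mul_add, mul_one, Finset.sum_mul, Finset.sum_range_succ' _ K,
      Finset.sum_range_succ' (fun k => (bin k).eval t • ν ^ k) K,
      Finset.sum_range_succ (fun k => (bin k).eval t • ν ^ k * ν) K, hν]
    simp only [bin_succ, add_smul, Finset.sum_add_distrib, smul_mul_assoc, ← pow_succ]
    simp [bin]; abel
  induction t using Int.induction_on with
  | zero =>
    rw [Finset.sum_range_succ', Finset.sum_eq_zero fun k _ => by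
      simp [bin, descPochhammer_succ_left]]
    simp [bin]
  | succ n ih => rw [zpow_add_one, Units.val_mul, ih]; push_cast; rw [h]
  | pred n ih =>
    have := h ((-(n : ℤ) - 1 : ℤ) : ℚ)
    rw [show ((-(n : ℤ) - 1 : ℤ) : ℚ) + 1 = ((-(n : ℤ) : ℤ) : ℚ) by push_cast; ring, ← ih] at this
    rw [zpow_sub_one, Units.val_mul, this, mul_assoc, Units.mul_inv, mul_one]

section alg
variable {V : Type*} [AddCommGroup V] [Module ℚ V] (τ : (Module.End ℚ V)ˣ) (ν : Module.End ℚ V)
  (K : ℕ)

/-- action of integer powers -/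
noncomputable def act (t : ℤ) (w : V) : V := ((τ ^ t : (Module.End ℚ V)ˣ) : Module.End ℚ V) w

lemma act_add (s t : ℤ) (w : V) : act τ (s + t) w = act τ s (act τ t w) := by
  simp [act, zpow_add]

/-- vector coefficients -/
noncomputable def uu {l : ℕ} (P : Fin l → ℤ[X]) (m : Fin l → V) (r : ℕ) : V :=
  ∑ j, ∑ k ∈ range (K + 1), ((bin k).comp ((P j).map (Int.castRingHom ℚ))).coeff r • (ν ^ k) (m j)

variable {τ ν K}

lemma theta (hτ : (τ : Module.End ℚ V) = 1 + ν) (hν : ν ^ K = 0) {F : Type*} [Field F]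
    [Algebra ℚ F] (φ : V →ₗ[ℚ] F) {l : ℕ} (P : Fin l → ℤ[X]) (m : Fin l → V) :
    ∃ Θ : F[X], (∀ r, Θ.coeff r = φ (uu ν K P m r)) ∧
      ∀ n : ℤ, Θ.eval (n : F) = φ (∑ j, act τ ((P j).eval n) (m j)) := by
  refine ⟨∑ j, ∑ k ∈ range (K + 1), ((bin k).comp ((P j).map (Int.castRingHom ℚ))).map
    (algebraMap ℚ F) * C (φ ((ν ^ k) (m j))), fun r => ?_, fun n => ?_⟩
  · simp only [uu, finsetSum_coeff, coeff_mul_C, coeff_map, map_sum, map_smul, Algebra.smul_def]
  · simp only [eval_finsetSum, eval_mul, eval_C, map_sum, act, zpow_eq τ ν K hτ hν,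
      LinearMap.sum_apply, LinearMap.smul_apply, map_smul]
    refine Finset.sum_congr rfl fun j _ => Finset.sum_congr rfl fun k _ => ?_
    rw [Algebra.smul_def]
    congr 1
    rw [← map_intCast (algebraMap ℚ F) n, eval_map_algebraMap, aeval_algebraMap_apply,
      coe_aeval_eq_eval, eval_comp, eval_intCast_map]
    simp

lemma kill (hτ : (τ : Module.End ℚ V) = 1 + ν) (φ : V →ₗ[ℚ] ℚ) : ∀ (d : ℕ) (Q : ℚ[X]) (w : V),
    Q.natDegree ≤ d → (∀ t : ℤ, Q.eval (t : ℚ) = φ (act τ t w)) → φ ((ν ^ (d + 1)) w) = 0 := by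
  have h1 : ∀ (Q : ℚ[X]) (w : V), (∀ t : ℤ, Q.eval (t : ℚ) = φ (act τ t w)) →
      ∀ t : ℤ, (taylor 1 Q - Q).eval (t : ℚ) = φ (act τ t (ν w)) := by
    intro Q w h t
    have := h (t + 1)
    push_cast at this
    rw [eval_sub, taylor_eval, this, h, act_add]
    simp [act, hτ]
  intro d
  induction d with
  | zero =>
    intro Q w hd h
    have := h1 Q w h 0
    rw [eq_C_of_natDegree_le_zero hd] at this
    simpa [act] using this.symm
  | succ d ih =>
    intro Q w hd h
    rw [pow_succ]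
    refine ih (taylor 1 Q - Q) (ν w) (natDegree_le_iff_coeff_eq_zero.mpr fun N hN => ?_) (h1 Q w h)
    rw [coeff_sub, taylor_coeff, sub_eq_zero, eq_C_of_natDegree_eq_zero (p := hasseDeriv N Q) (by
      have := natDegree_hasseDeriv_le Q N; omega), hasseDeriv_coeff]
    simp

lemma act_fix (hτ : (τ : Module.End ℚ V) = 1 + ν) (hν : ν ^ K = 0) {e : V} (he : ν e = 0) (t : ℤ) :
    act τ t e = e := by
  rw [act, zpow_eq τ ν K hτ hν, Finset.sum_range_succ', LinearMap.add_apply, LinearMap.sum_apply,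
    Finset.sum_eq_zero fun k _ => by simp [pow_succ, he]]
  simp [bin]

lemma level (hτ : (τ : Module.End ℚ V) = 1 + ν) (hν : ν ^ K = 0) {e w : V} (he : ν e = 0) {k : ℕ}
    {ρ : ℚ} (h : (ν ^ (k + 1)) w = ρ • e) (n : ℕ) :
    (ν ^ k) (act τ n w - w) = ((n : ℚ) * ρ) • e := by
  induction n with
  | zero => simp [act]
  | succ n ih =>
    have hc : Commute (τ : Module.End ℚ V) ν := by
      rw [hτ]; exact (Commute.one_left _).add_left (Commute.refl _)
    have h1 := LinearMap.congr_fun ((hc.units_zpow_left n).pow_right k).eq (ν w)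
    have h2 := act_fix hτ hν he n
    rw [pow_succ, Module.End.mul_apply] at h
    simp only [Module.End.mul_apply, h, map_smul] at h1
    have h3 : act τ ((n + 1 : ℕ) : ℤ) w - w = (act τ n w - w) + act τ n (ν w) := by
      push_cast; rw [act_add]; simp [act, hτ]; abel
    rw [h3, map_add, ih]
    simp only [act] at h2 ⊢
    rw [← h1, h2, ← add_smul]; push_cast; ring_nf

theorem case2 (hτ : (τ : Module.End ℚ V) = 1 + ν) (hν : ν ^ K = 0) (e : V) (he : ν e = 0) {d : ℕ}
    (P : Fin (d + 1) → ℤ[X]) (h1 : ∀ i, 0 < (P i).natDegree)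
    (h2 : ∀ i j, i ≠ j → 0 < (P i - P j).natDegree) (m : Fin (d + 1) → V)
    (h : ∀ r, 0 < r → uu ν K P m r ∈ Submodule.span ℚ {e}) (j : Fin (d + 1)) :
    (ν ^ (d + 1)) (m j) ∈ Submodule.span ℚ {e} := by
  by_contra hh
  obtain ⟨φ, a1, a2⟩ := Submodule.exists_dual_map_eq_bot_of_notMem hh inferInstance
  have a3 : φ e = 0 := by
    have : φ e ∈ Submodule.map φ (Submodule.span ℚ {e}) :=
      Submodule.mem_map_of_mem (Submodule.mem_span_singleton_self e)
    rwa [a2] at this
  have hQ : ∀ w : V, ∃ Q : ℚ[X], ∀ t : ℤ, Q.eval (t : ℚ) = φ (act τ t w) := fun w => by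
    obtain ⟨Θ, -, b⟩ := theta hτ hν φ (fun _ : Fin 1 => X) fun _ => w
    exact ⟨Θ, fun t => by simpa using b t⟩
  choose Q hQ using hQ
  have hfix := act_fix hτ hν he
  have inj := (Int.castRingHom ℚ).injective_int
  have := alg (ι := Option (Fin (d + 1))) (fun i => i.elim 0 fun j => (P j).map (Int.castRingHom ℚ))
    (fun i => Q (i.elim (-uu ν K P m 0) m))
    (by
      rintro (_ | i) (_ | j) hij
      · exact absurd rfl hij
      · simpa [natDegree_map_eq_of_injective inj] using h1 j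
      · simpa [natDegree_map_eq_of_injective inj] using h1 i
      · simp only [Option.elim_some, ← Polynomial.map_sub, natDegree_map_eq_of_injective inj]
        exact h2 i j fun e => hij (by rw [e]))
    (fun x y => by
      obtain ⟨Θ, b1, b2⟩ := theta hτ hν (φ ∘ₗ ((τ ^ x : (Module.End ℚ V)ˣ) : Module.End ℚ V)) P m
      have b3 : Θ = C (Θ.coeff 0) := eq_C_of_natDegree_le_zero
        (natDegree_le_iff_coeff_eq_zero.mpr fun N hN => by
          obtain ⟨c, hc⟩ := Submodule.mem_span_singleton.mp (h N hN)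
          have := hfix x
          rw [act] at this
          rw [b1, ← hc]; simp [this, a3])
      have b4 := b2 y
      rw [b3, eval_C, b1] at b4
      rw [Fintype.sum_option]
      simp only [Option.elim_none, Option.elim_some, eval_zero, add_zero, eval_intCast_map,
        eq_intCast, Int.cast_id, ← Int.cast_add, hQ, act_add]
      simp only [LinearMap.comp_apply, map_sum] at b4
      simp only [act] at b4 ⊢
      rw [← b4]; simp)
    (by simp) (some j)
  exact a1 (kill hτ φ d (Q (m j)) (m j) (by simp at this; omega) (hQ _))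

end alg

section torus
open MeasureTheory
variable {D : ℕ}

/-- frequency and phase -/
abbrev W (D : ℕ) : Type := (Fin D → ℝ) × ℝ

/-- projection to the torus -/
def pr (y : Fin D → ℝ) : Tor D := fun i => (y i : UnitAddCircle)

lemma pr_surj (x : Tor D) : ∃ y, pr y = x := by
  choose y hy using fun i => QuotientAddGroup.mk_surjective (x i)
  exact ⟨y, funext hy⟩

/-- evaluation -/
noncomputable def ph (y : Fin D → ℝ) : W D →ₗ[ℚ] ℝ where
  toFun w := w.1 ⬝ᵥ y + w.2
  map_add' a b := by simp; ring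
  map_smul' a b := by simp

/-- integer frequencies -/
def Lat (D : ℕ) : AddSubgroup (W D) where
  carrier := {w | ∀ i, ∃ z : ℤ, w.1 i = z}
  add_mem' ha hb i := by
    obtain ⟨a, h1⟩ := ha i
    obtain ⟨b, h2⟩ := hb i
    exact ⟨a + b, by simp [h1, h2]⟩
  zero_mem' i := ⟨0, by simp⟩
  neg_mem' ha i := by
    obtain ⟨a, h1⟩ := ha i
    exact ⟨-a, by simp [h1]⟩

/-- character with phase -/
noncomputable def chi (w : W D) (x : Tor D) : ℂ :=
  ee w.2 * UnitAddTorus.mFourier (fun i => ⌊w.1 i⌋) x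

lemma chi_cont (w : W D) : Continuous (chi w) :=
  continuous_const.mul (UnitAddTorus.mFourier _).continuous

lemma ee_sum {ι : Type*} (s : Finset ι) (f : ι → ℝ) : ee (∑ i ∈ s, f i) = ∏ i ∈ s, ee (f i) := by
  classical
  induction s using Finset.induction_on with
  | empty => simp [ee_zero]
  | insert a s ha ih => rw [Finset.sum_insert ha, Finset.prod_insert ha, ee_add, ih]

lemma chi_pr {w : W D} (hw : w ∈ Lat D) (y : Fin D → ℝ) : chi w (pr y) = ee (ph y w) := by
  choose z hz using hw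
  simp only [chi, ph, LinearMap.coe_mk, AddHom.coe_mk, ee_add, dotProduct, ee_sum, hz,
    Int.floor_intCast, UnitAddTorus.mFourier, ContinuousMap.coe_mk, pr, fourier_coe_apply]
  rw [mul_comm]
  congr 1
  refine Finset.prod_congr rfl fun i _ => ?_
  rw [ee]; congr 1; push_cast; ring

lemma norm_chi {w : W D} (hw : w ∈ Lat D) (x : Tor D) : ‖chi w x‖ = 1 := by
  obtain ⟨y, rfl⟩ := pr_surj x
  rw [chi_pr hw, norm_ee]

/-- the nilpotent map -/
noncomputable def nu (A : Matrix (Fin D) (Fin D) ℤ) (b : Fin D → ℝ) : Module.End ℚ (W D) where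
  toFun w := (Matrix.vecMul w.1 ((A - 1).map (Int.castRingHom ℝ)), w.1 ⬝ᵥ b)
  map_add' a c := by simp [Matrix.add_vecMul]
  map_smul' a c := by simp [Matrix.smul_vecMul]

lemma nu_nil {A : Matrix (Fin D) (Fin D) ℤ} (hA : IsNilpotent (A - 1)) (b : Fin D → ℝ) :
    ∃ K, nu A b ^ K = 0 := by
  obtain ⟨K, hK⟩ := hA
  have h : ∀ k (w : W D), ((nu A b ^ k) w).1 =
      Matrix.vecMul w.1 (((A - 1) ^ k).map (Int.castRingHom ℝ)) := by
    intro k
    induction k with
    | zero => simp
    | succ k ih =>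
      intro w
      rw [pow_succ', pow_succ, Matrix.map_mul, ← Matrix.vecMul_vecMul, ← ih]
      rfl
  refine ⟨K + 1, LinearMap.ext fun w => ?_⟩
  have := h K w
  rw [hK] at this
  rw [pow_succ', Module.End.mul_apply]
  simp only [nu, LinearMap.coe_mk, AddHom.coe_mk] at this ⊢
  rw [this]; simp

lemma nu_lat (A : Matrix (Fin D) (Fin D) ℤ) (b : Fin D → ℝ) {w : W D} (hw : w ∈ Lat D) :
    nu A b w ∈ Lat D := by
  choose z hz using hw
  intro i
  exact ⟨∑ j, z j * (A - 1) j i, by simp [nu, Matrix.vecMul, dotProduct, hz]⟩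

/-- the data of a Weyl system -/
structure Sys (D : ℕ) where
  T : Equiv.Perm (Tor D)
  ν : Module.End ℚ (W D)
  τ : (Module.End ℚ (W D))ˣ
  K : ℕ
  hτ : (τ : Module.End ℚ (W D)) = 1 + ν
  hν : ν ^ K = 0
  he : ν (0, 1) = 0
  lat : ∀ w ∈ Lat D, ν w ∈ Lat D
  comp : ∀ w ∈ Lat D, ∀ x, chi w (T x) = chi ((τ : Module.End ℚ (W D)) w) x
  mp : MeasurePreserving T (haar D) (haar D)
  mp' : MeasurePreserving T.symm (haar D) (haar D)

instance : (haar D).IsAddHaarMeasure := by unfold haar; infer_instance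
instance : IsProbabilityMeasure (haar D) := by unfold haar; infer_instance

theorem exists_sys (A : Matrix (Fin D) (Fin D) ℤ) (b : Tor D) (T : Equiv.Perm (Tor D))
    (hA : IsNilpotent (A - 1)) (hT : ∀ x, T x = fun i => (∑ j, A i j • x j) + b i) :
    ∃ S : Sys D, S.T = T := by
  obtain ⟨c, rfl⟩ := pr_surj b
  obtain ⟨K, hK⟩ := nu_nil hA c
  have hu : IsUnit (1 + nu A c) := IsNilpotent.isUnit_one_add ⟨K, hK⟩
  let L : Tor D →+ Tor D :=
    { toFun := fun x i => ∑ j, A i j • x j
      map_zero' := by ext; simp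
      map_add' := fun x y => by ext; simp [Finset.sum_add_distrib] }
  have hL : Continuous L := by
    change Continuous fun (x : Tor D) i => ∑ j, A i j • x j
    fun_prop
  have e : (T : Tor D → Tor D) = (fun x => x + pr c) ∘ L := funext hT
  have hc : Continuous T := by rw [e]; fun_prop
  have mp : MeasurePreserving T (haar D) (haar D) := by
    rw [e]
    refine (measurePreserving_add_right _ _).comp (L.measurePreserving hL (fun x => ?_) rfl)
    obtain ⟨y, hy⟩ := T.surjective (x + pr c)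
    rw [e] at hy
    exact ⟨y, add_right_cancel hy⟩
  refine ⟨⟨T, nu A c, hu.unit, K, rfl, hK, by simp [nu], fun w => nu_lat A c, fun w hw x => ?_, mp,
    MeasurePreserving.symm (hc.homeoOfEquivCompactToT2.toMeasurableEquiv) mp⟩, rfl⟩
  obtain ⟨y, rfl⟩ := pr_surj x
  have : T (pr y) = pr ((A.map (Int.castRingHom ℝ)).mulVec y + c) := by
    rw [hT]; ext i
    simp [pr, Matrix.mulVec, dotProduct, ← zsmul_eq_mul, QuotientAddGroup.mk_sum]
  rw [this, chi_pr hw, IsUnit.unit_spec, chi_pr (w := (1 + nu A c) w)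
    ((Lat D).add_mem hw (nu_lat A c hw))]
  congr 1
  simp only [ph, nu, LinearMap.coe_mk, AddHom.coe_mk, LinearMap.add_apply, Module.End.one_apply,
    Prod.fst_add, Prod.snd_add, dotProduct_add, add_dotProduct, ← Matrix.dotProduct_mulVec]
  rw [Matrix.map_sub _ (map_sub _), Matrix.map_one _ (map_zero _) (map_one _), Matrix.sub_mulVec]
  simp; ring

namespace Sys
variable (S : Sys D)

lemma lat_inv {w : W D} (h : (S.τ : Module.End ℚ (W D)) w ∈ Lat D) : w ∈ Lat D := by
  have : ∀ k, w - ((-S.ν) ^ k) w ∈ Lat D := by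
    intro k
    induction k with
    | zero => simp
    | succ k ih =>
      have := (Lat D).sub_mem h (S.lat _ ih)
      rw [S.hτ] at this
      convert this using 1
      simp [pow_succ']; abel
  have := this S.K
  have e : (-S.ν) ^ S.K = 0 := (neg_pow S.ν S.K).trans (by rw [S.hν, mul_zero])
  rwa [e, LinearMap.zero_apply, sub_zero] at this

lemma chi_zpow (t : ℤ) : ∀ w ∈ Lat D, act S.τ t w ∈ Lat D ∧
    ∀ x, chi w ((S.T ^ t) x) = chi (act S.τ t w) x := by
  induction t using Int.induction_on with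
  | zero => intro w hw; simpa [act] using hw
  | succ n ih =>
    intro w hw
    obtain ⟨h1, h2⟩ := ih w hw
    have e : act S.τ (n + 1) w = (S.τ : Module.End ℚ (W D)) (act S.τ n w) := by
      rw [add_comm, act_add]; simp [act]
    rw [e]
    refine ⟨by rw [S.hτ]; exact (Lat D).add_mem h1 (S.lat _ h1), fun x => ?_⟩
    rw [zpow_add_one, Equiv.Perm.mul_apply, h2, S.comp _ h1]
  | pred n ih =>
    intro w hw
    obtain ⟨h1, h2⟩ := ih w hw
    have e : act S.τ (-n) w = (S.τ : Module.End ℚ (W D)) (act S.τ (-n - 1) w) := by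
      conv_lhs => rw [show (-n : ℤ) = 1 + (-n - 1) by ring, act_add]
      simp [act]
    have h3 := S.lat_inv (e ▸ h1)
    refine ⟨h3, fun x => ?_⟩
    rw [zpow_sub_one, Equiv.Perm.mul_apply, h2, e, ← S.comp _ h3]
    simp

lemma mp_zpow (t : ℤ) : MeasurePreserving (S.T ^ t : Equiv.Perm (Tor D)) (haar D) (haar D) := by
  induction t using Int.induction_on with
  | zero => exact MeasurePreserving.id _
  | succ n ih => rw [zpow_add_one]; exact ih.comp S.mp
  | pred n ih => rw [zpow_sub_one]; exact ih.comp S.mp'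

end Sys

lemma dct {α : Type*} [MeasurableSpace α] {μ : Measure α} [IsFiniteMeasure μ] (f : ℕ → α → ℂ)
    (hm : ∀ n, Measurable (f n)) (hb : ∀ n x, ‖f n x‖ ≤ 1)
    (h : ∀ᵐ x ∂μ, Tendsto (fun n => f n x) atTop (𝓝 0)) :
    Tendsto (fun n => eLpNorm (f n) 2 μ) atTop (𝓝 0) := by
  have := tendsto_lintegral_of_dominated_convergence (μ := μ) (F := fun n x => ‖f n x‖ₑ ^ (2 : ℝ))
    (f := fun _ => 0) (fun _ => 1) (fun n => by have := hm n; fun_prop)
    (fun n => ae_of_all _ fun x => ENNReal.rpow_le_one (by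
      rw [← ofReal_norm]; exact ENNReal.ofReal_le_one.mpr (hb n x)) (by norm_num)) (by simp)
    (h.mono fun x hx => by simpa using hx.enorm.ennrpow_const 2)
  simpa [eLpNorm_eq_lintegral_rpow_enorm_toReal] using this.ennrpow_const (1 / 2)

lemma ae_irr {w : W D} (hw : w ∉ Submodule.span ℚ {((0, 1) : W D)}) :
    ∀ᵐ y : Fin D → ℝ, Irrational (ph y w) := by
  by_cases h : w.1 = 0
  · refine ae_of_all _ fun y ⟨q, hq⟩ => hw (Submodule.mem_span_singleton.mpr ⟨q, ?_⟩)
    ext <;> simp_all [ph]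
  · have : ∀ q : ℚ, ∀ᵐ y : Fin D → ℝ, (q : ℝ) ≠ ph y w := by
      intro q
      rw [ae_iff]
      let f : (Fin D → ℝ) →ₗ[ℝ] ℝ := dotProductBilin ℝ ℝ w.1
      by_cases h2 : ∃ y0, (q : ℝ) = ph y0 w
      · obtain ⟨y0, h0⟩ := h2
        have : {y | ¬(q : ℝ) ≠ ph y w} = (fun y => y + -y0) ⁻¹' (LinearMap.ker f) := by
          ext y
          simp [h0, ph, f, eq_comm, add_neg_eq_zero]
        rw [this, measure_preimage_add_right]
        refine Measure.addHaar_submodule _ _ fun e => h ?_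
        have : w.1 ∈ LinearMap.ker f := e ▸ Submodule.mem_top
        simpa [f] using this
      · push Not at h2
        simp [h2]
    exact (ae_all_iff.mpr this).mono fun y hy ⟨q, hq⟩ => hy q hq

theorem Sys.case1 (S : Sys D) {l : ℕ} (P : Fin l → ℤ[X]) (m : Fin l → W D) (hm : ∀ j, m j ∈ Lat D)
    (r : ℕ) (hr : 0 < r) (h : uu S.ν S.K P m r ∉ Submodule.span ℚ {((0, 1) : W D)}) :
    Tendsto (fun N => eLpNorm (avg S.T P (fun j => chi (m j)) N) 2 (haar D)) atTop (𝓝 0) := by
  have mp : MeasurePreserving (pr (D := D))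
      (Measure.pi fun _ => volume.restrict (Set.Ioc (0 : ℝ) (0 + 1))) (haar D) := by
    have := measurePreserving_pi _ _ fun _ : Fin D => AddCircle.measurePreserving_mk 1 0
    simp only [AddCircle.volume_eq_smul_haarAddCircle, ENNReal.ofReal_one, one_smul] at this
    exact this
  have e : ∀ N, avg S.T P (fun j => chi (m j)) N = fun x => (N : ℂ)⁻¹ * ∑ n ∈ Finset.Icc 1 N,
      ∏ j, chi (act S.τ ((P j).eval (n : ℤ)) (m j)) x := fun N => funext fun x => by
    simp only [avg, (S.chi_zpow _ _ (hm _)).2]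
  have hc : ∀ N, Continuous (avg S.T P (fun j => chi (m j)) N) := fun N => by
    rw [e]
    exact continuous_const.mul (continuous_finsetSum _ fun n _ =>
      continuous_finsetProd _ fun j _ => chi_cont _)
  simp only [← fun N => eLpNorm_comp_measurePreserving (p := 2) (hc N).aestronglyMeasurable mp]
  refine dct _ (fun N => (hc N).measurable.comp mp.measurable) (fun N y => ?_) ?_
  · rw [Function.comp, e, norm_mul, norm_inv, Complex.norm_natCast]
    refine inv_mul_le_one_of_le₀ ((norm_sum_le _ _).trans ?_) (by positivity)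
    simp [(norm_chi (S.chi_zpow _ _ (hm _)).1)]
  · rw [← Measure.restrict_pi_pi]
    refine ae_restrict_of_ae ((ae_irr h).mono fun y hy => ?_)
    obtain ⟨Θ, a1, a2⟩ := theta S.hτ S.hν (ph y) P m
    have := (weyl _ Θ 1 (fun _ => 1) le_rfl ⟨r, hr, a1 r ▸ hy⟩ one_pos (fun _ => rfl)
      (by simp)).shift (fun n => by simp [norm_ee]) 1
    refine this.congr fun N => ?_
    rw [Function.comp, e, Finset.range_eq_Ico, Finset.sum_Ico_add'
      (fun n : ℕ => 1 * ee (Θ.eval (n : ℝ))) 0 N 1]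
    congr 1
    refine Finset.sum_congr (by ext; simp) fun n _ => ?_
    have := a2 n
    rw [Int.cast_natCast] at this
    rw [this, map_sum, ee_sum, one_mul]
    exact Finset.prod_congr rfl fun j _ => (chi_pr (S.chi_zpow _ _ (hm _)).1 y).symm

end torus

end Pool.Agent.H.MP_467fc0_an
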