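import Pool.Agent.H.MP_467fc0_an.C

set_option autoImplicit false
open Finset Filter Topology ComplexConjugate Polynomial MeasureTheory
open scoped ENNReal InnerProductSpace

namespace Pool.Agent.H.MP_467fc0_an

lemma sum_inj_le {M : Type*} [AddCommMonoid M] [PartialOrder M] [IsOrderedAddMonoid M]
    {s t : Finset ℕ} (g : ℕ → ℕ) (c : ℕ → M) (h1 : Set.InjOn g s) (h2 : ∀ i ∈ s, g i ∈ t)
    (h3 : ∀ i, 0 ≤ c i) : ∑ i ∈ s, c (g i) ≤ ∑ j ∈ t, c j := by
  rw [← Finset.sum_image h1]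
  exact Finset.sum_le_sum_of_subset_of_nonneg (Finset.image_subset_iff.mpr h2) fun i _ _ => h3 i

lemma hilb {E : Type*} [NormedAddCommGroup E] [InnerProductSpace ℂ E] (e : E) (he : ‖e‖ ≤ 1)
    (x : ℕ → E) (α : ℂ) (hα : ∀ i, ⟪e, x i⟫_ℂ = α) (c : ℕ → ℝ)
    (hc : ∀ i h, ‖⟪x i, x (i + h)⟫_ℂ‖ ≤ c h) (H : ℕ) (hH : 0 < H) :
    H * ‖α‖ ^ 2 ≤ c 0 + 2 * ∑ h ∈ Icc 1 H, c h := by
  have c0 : ∀ h, 0 ≤ c h := fun h => (norm_nonneg _).trans (hc 0 h)
  have h1 : ∀ n ≤ H, ‖∑ i ∈ range n, x i‖ ^ 2 ≤ n * (c 0 + 2 * ∑ h ∈ Icc 1 H, c h) := by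
    intro n
    induction n with
    | zero => simp
    | succ n ih =>
      intro hn
      have a1 := ih (by omega)
      have a2 : ‖x n‖ ^ 2 ≤ c 0 := by
        have := hc n 0
        rwa [add_zero, inner_self_eq_norm_sq_to_K, norm_pow, RCLike.norm_ofReal, abs_norm] at this
      have a3 : RCLike.re ⟪∑ i ∈ range n, x i, x n⟫_ℂ ≤ ∑ h ∈ Icc 1 H, c h := by
        refine (RCLike.re_le_norm _).trans ?_
        rw [sum_inner]
        refine (norm_sum_le _ _).trans ((Finset.sum_le_sum (g := fun i => c (n - i))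
          fun i hi => ?_).trans ?_)
        · have := hc i (n - i)
          rwa [show i + (n - i) = n by have := mem_range.mp hi; omega] at this
        · refine sum_inj_le (fun i => n - i) c (fun i hi j hj e => ?_) (fun i hi => ?_) c0
          · simp at hi hj e; omega
          · simp at hi ⊢; omega
      rw [Finset.sum_range_succ, @norm_add_sq ℂ]
      push_cast; linarith
  have h2 : H * ‖α‖ ≤ ‖∑ i ∈ range H, x i‖ := by
    have := norm_inner_le_norm (𝕜 := ℂ) e (∑ i ∈ range H, x i)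
    rw [inner_sum] at this
    simp only [hα, Finset.sum_const, card_range, nsmul_eq_mul, norm_mul, Complex.norm_natCast] at this
    exact this.trans (mul_le_of_le_one_left (norm_nonneg _) he)
  have h3 := (pow_le_pow_left₀ (by positivity) h2 2).trans (h1 H le_rfl)
  have : (0 : ℝ) < H := by exact_mod_cast hH
  refine le_of_mul_le_mul_left ?_ this
  linarith

section
variable {α : Type*} [MeasurableSpace α] {μ : Measure α}

lemma Lmul {f g : α → ℂ} (hf : MemLp f ⊤ μ) (hg : MemLp g ⊤ μ) : MemLp (fun x => f x * g x) ⊤ μ :=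
  hg.mul' hf

lemma Lconj {f : α → ℂ} (hf : MemLp f ⊤ μ) : MemLp (fun x => conj (f x)) ⊤ μ := hf.star

lemma inner_toLp {f g : α → ℂ} (hf : MemLp f 2 μ) (hg : MemLp g 2 μ) :
    ⟪hf.toLp f, hg.toLp g⟫_ℂ = ∫ x, conj (f x) * g x ∂μ := by
  rw [L2.inner_def]
  refine integral_congr_ae ?_
  filter_upwards [hf.coeFn_toLp, hg.coeFn_toLp] with x h1 h2
  rw [h1, h2, RCLike.inner_apply, mul_comm]

lemma int_comp {T : α → α} (mp : MeasurePreserving T μ μ) {g : α → ℂ}
    (hg : AEStronglyMeasurable g μ) : ∫ x, g (T x) ∂μ = ∫ x, g x ∂μ := by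
  rw [← integral_map mp.measurable.aemeasurable (by rwa [mp.map_eq]), mp.map_eq]

end

variable {D : ℕ}

lemma Lchi {w : W D} (hw : w ∈ Lat D) : MemLp (chi w) ⊤ (haar D) :=
  memLp_top_of_bound (chi_cont w).aestronglyMeasurable 1 (ae_of_all _ fun x => (norm_chi hw x).le)

/-- correlation with a character -/
noncomputable def coef (w : W D) (f : Tor D → ℂ) : ℂ := ∫ x, f x * conj (chi w x) ∂haar D

namespace Sys
variable (S : Sys D)

lemma mp_pow (n : ℕ) : MeasurePreserving (S.T ^ n : Equiv.Perm (Tor D)) (haar D) (haar D) := by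
  simpa using S.mp_zpow n

lemma base {w : W D} (hw : w ∈ Lat D) (z : ℤ) (h : S.ν w = (z : ℚ) • (0, 1)) {f : Tor D → ℂ}
    (hf : MemLp f ⊤ (haar D)) : ‖coef w f‖ₑ ^ 2 ≤ hk0 S.T f := by
  have h1 : ∀ x, chi w (S.T x) = chi w x := fun x => by
    rw [S.comp w hw, S.hτ, LinearMap.add_apply, h]
    simp [chi, ee_add, ee_int]
  have h2 : StronglyMeasurable[MeasurableSpace.invariants S.T] fun x => conj (chi w x) := by
    refine Measurable.stronglyMeasurable (MeasurableSpace.measurable_invariants_dom.mpr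
      ⟨(Complex.continuous_conj.comp (chi_cont w)).measurable, fun s _ => ?_⟩)
    congr 1
    exact funext fun x => by simp [h1]
  have h3 := condExp_bilin_of_stronglyMeasurable_right (ContinuousLinearMap.mul ℝ ℂ) h2
    ((Lmul hf (Lconj (Lchi hw))).integrable le_top) (hf.integrable le_top)
  have h4 := integral_congr_ae h3
  rw [integral_condExp (MeasurableSpace.invariants_le _)] at h4
  simp only [ContinuousLinearMap.mul_apply'] at h4
  rw [hk0, coef, h4]
  gcongr
  refine (enorm_integral_le_lintegral_enorm _).trans (le_trans ?_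
    (eLpNorm_le_eLpNorm_of_exponent_le (p := 1) one_le_two
      integrable_condExp.aestronglyMeasurable))
  rw [eLpNorm_one_eq_lintegral_enorm]
  refine le_of_eq (lintegral_congr fun x => ?_)
  rw [enorm_mul, ← ofReal_norm (conj _), Complex.norm_conj, norm_chi hw]; simp

/-- the inductive claim -/
def Cl (k : ℕ) (C : ℝ≥0∞) : Prop := ∀ w ∈ Lat D, ∀ z : ℤ,
  (S.ν ^ (k + 1)) w = (z : ℚ) • (0, 1) → ∀ f : Tor D → ℂ, MemLp f ⊤ (haar D) →
    ‖coef w f‖ₑ ^ 2 ^ (k + 1) ≤ C * hk S.T k f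

lemma stp {k : ℕ} {C : ℝ≥0∞} (hC : C ≠ ⊤) (h : S.Cl k C) {w : W D} (hw : w ∈ Lat D) {ρ : ℚ}
    (hρ : (S.ν ^ (k + 1 + 1)) w = ρ • (0, 1)) {f : Tor D → ℂ} (hf : MemLp f ⊤ (haar D)) :
    ‖coef w f‖ₑ ^ 2 ^ (k + 1 + 1) ≤ (4 ^ 2 ^ (k + 1) * ρ.den * C) * hk S.T (k + 1) f := by
  rcases eq_or_ne (coef w f) 0 with h0 | h0
  · simp [h0]
  set q := ρ.den
  have hq : 0 < q := ρ.den_pos
  let F : Tor D → ℂ := fun x => f x * conj (chi w x)
  have hF : MemLp F ⊤ (haar D) := Lmul hf (Lconj (Lchi hw))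
  have hF' : ∀ n : ℕ, MemLp (fun x => F ((S.T ^ n) x)) ⊤ (haar D) := fun n =>
    hF.comp_measurePreserving (S.mp_pow n)
  let g : ℕ → Tor D → ℂ := fun n x => conj (f x) * f ((S.T ^ n) x)
  have hg : ∀ n, MemLp (g n) ⊤ (haar D) := fun n =>
    Lmul (Lconj hf) (hf.comp_measurePreserving (S.mp_pow n))
  let c : ℕ → ℝ := fun n => ‖coef (act S.τ (q * n : ℕ) w - w) (g (q * n))‖
  have key := hilb ((memLp_const (1 : ℂ)).toLp (p := 2) (μ := haar D) _)
    (by rw [Lp.norm_toLp, eLpNorm_const _ two_ne_zero (NeZero.ne _)]; simp) (fun i => ((hF' (q * i)).mono_exponent le_top).toLp _) (coef w f)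
    (fun i => by
      rw [inner_toLp]
      simpa using! int_comp (S.mp_pow (q * i)) hF.1) c
    (fun i n => by
      rw [inner_toLp]
      have := int_comp (S.mp_pow (q * i)) (Lmul (Lconj hF) (hF' (q * n))).1
      simp only [← Equiv.Perm.mul_apply, ← pow_add] at this
      rw [show q * (i + n) = q * n + q * i by ring, this]
      refine le_of_eq (congrArg _ (integral_congr_ae (ae_of_all _ fun x => ?_)))
      obtain ⟨y, rfl⟩ := pr_surj x
      obtain ⟨a1, a2⟩ := S.chi_zpow (q * n : ℕ) w hw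
      rw [zpow_natCast] at a2
      simp only [F, g, a2, chi_pr hw, chi_pr a1, chi_pr ((Lat D).sub_mem a1 hw), map_sub, map_mul,
        conj_ee, neg_neg, neg_sub]
      rw [sub_eq_add_neg, ee_add]
      ring)
  have hc : ∀ n, ENNReal.ofReal (c n ^ 2 ^ (k + 1)) ≤ C * hk S.T k (g (q * n)) := fun n => by
    rw [ENNReal.ofReal_pow (norm_nonneg _), ofReal_norm]
    refine h _ ((Lat D).sub_mem (S.chi_zpow _ w hw).1 hw) (n * ρ.num) ?_ _ (hg _)
    rw [level S.hτ S.hν S.he hρ]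
    push_cast; rw [← Rat.mul_den_eq_num]; congr 1; ring
  rw [hk, Function.iterate_succ_apply', step, ← ENNReal.limsup_const_mul_of_ne_top (by finiteness)]
  refine le_limsup_of_frequently_le (frequently_atTop.mpr fun N => ?_)
  have a0 : 0 < ‖coef w f‖ ^ 2 := by positivity
  obtain ⟨H0, hH0⟩ := exists_nat_gt (2 * c 0 / ‖coef w f‖ ^ 2)
  rw [div_lt_iff₀ a0] at hH0
  obtain ⟨H, h1, h2, h3⟩ : ∃ H, N ≤ H ∧ H0 ≤ H ∧ 0 < H := ⟨N + H0 + 1, by omega, by omega, by omega⟩
  refine ⟨q * H, h1.trans (Nat.le_mul_of_pos_left _ hq), ?_⟩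
  have b1 : H * ‖coef w f‖ ^ 2 ≤ 4 * ∑ h ∈ Icc 1 H, c h := by
    have := key H h3
    have : (H0 : ℝ) * ‖coef w f‖ ^ 2 ≤ H * ‖coef w f‖ ^ 2 := by gcongr
    linarith
  obtain ⟨r, hr⟩ : ∃ r, 2 ^ (k + 1) = r + 1 := Nat.exists_eq_succ_of_ne_zero (by positivity)
  have b2 : H * ‖coef w f‖ ^ 2 ^ (k + 1 + 1) ≤ 4 ^ (r + 1) * ∑ h ∈ Icc 1 H, c h ^ (r + 1) := by
    have e1 := pow_le_pow_left₀ (by positivity) b1 (r + 1)
    have e2 := pow_sum_le_card_mul_sum_pow (s := Icc 1 H) (f := c) (fun _ _ => norm_nonneg _) r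
    rw [Nat.card_Icc, Nat.add_sub_cancel] at e2
    rw [pow_succ' 2 (k + 1), pow_mul, hr]
    refine le_of_mul_le_mul_left ?_ (show (0 : ℝ) < H ^ r by positivity)
    rw [mul_pow, mul_pow] at e1
    calc _ = (H : ℝ) ^ (r + 1) * (‖coef w f‖ ^ 2) ^ (r + 1) := by ring
      _ ≤ 4 ^ (r + 1) * ((H : ℝ) ^ r * ∑ h ∈ Icc 1 H, c h ^ (r + 1)) := e1.trans (by gcongr)
      _ = _ := by ring
  have b3 := ENNReal.ofReal_le_ofReal b2
  rw [ENNReal.ofReal_mul (by positivity), ENNReal.ofReal_mul (by positivity),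
    ENNReal.ofReal_pow (norm_nonneg _), ofReal_norm, ENNReal.ofReal_sum_of_nonneg
      (fun _ _ => pow_nonneg (norm_nonneg _) _), ENNReal.ofReal_natCast,
    ENNReal.ofReal_pow (by norm_num), ENNReal.ofReal_ofNat, ← hr] at b3
  have b4 : ∑ h ∈ Icc 1 H, ENNReal.ofReal (c h ^ 2 ^ (k + 1)) ≤
      C * ∑ h ∈ Icc 1 (q * H), hk S.T k (g h) := by
    refine (Finset.sum_le_sum fun n _ => hc n).trans ?_
    rw [← Finset.mul_sum]
    gcongr
    refine sum_inj_le (fun n => q * n) (fun n => hk S.T k (g n))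
      (fun i _ j _ e => Nat.eq_of_mul_eq_mul_left hq e) (fun i hi => ?_) fun _ => zero_le
    rw [mem_Icc] at hi ⊢
    exact ⟨Nat.mul_pos hq hi.1, Nat.mul_le_mul_left _ hi.2⟩
  have n1 : (H : ℝ≥0∞) ≠ 0 := by exact_mod_cast h3.ne'
  have n2 : (q : ℝ≥0∞) ≠ 0 := by exact_mod_cast hq.ne'
  refine (ENNReal.mul_le_mul_iff_right n1 (ENNReal.natCast_ne_top H)).mp
    (b3.trans ((mul_le_mul_right b4 _).trans (le_of_eq ?_)))
  have e : ((q : ℝ≥0∞) * H) * ((q * H : ℕ) : ℝ≥0∞)⁻¹ = 1 := by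
    rw [← Nat.cast_mul]
    exact ENNReal.mul_inv_cancel (by exact_mod_cast (Nat.mul_pos hq h3).ne') (by finiteness)
  change _ = _ * (_ * (_ * ∑ h ∈ Icc 1 (q * H), hk S.T k (g h)))
  calc _ = 4 ^ 2 ^ (k + 1) * (C * ∑ h ∈ Icc 1 (q * H), hk S.T k (g h)) *
      (((q : ℝ≥0∞) * H) * ((q * H : ℕ) : ℝ≥0∞)⁻¹) := by rw [e, mul_one]
    _ = _ := by ring

lemma cl (k : ℕ) : ∃ C, C ≠ ⊤ ∧ S.Cl k C := by
  induction k with
  | zero => exact ⟨1, by simp, fun w hw z h f hf => by simpa [hk] using S.base hw z (by simpa using h) hf⟩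
  | succ k ih =>
    obtain ⟨C, h1, h2⟩ := ih
    exact ⟨4 ^ 2 ^ (k + 1) * C, by finiteness, fun w hw z h f hf => by
      simpa using S.stp h1 h2 hw h hf⟩

theorem coef_zero {k : ℕ} {w : W D} (hw : w ∈ Lat D)
    (h : (S.ν ^ (k + 1 + 1)) w ∈ Submodule.span ℚ {((0, 1) : W D)}) {f : Tor D → ℂ}
    (hf : MemLp f ⊤ (haar D)) (h0 : hk S.T (k + 1) f = 0) : coef w f = 0 := by
  obtain ⟨ρ, hρ⟩ := Submodule.mem_span_singleton.mp h
  obtain ⟨C, h1, h2⟩ := S.cl k
  have := S.stp h1 h2 hw hρ.symm hf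
  simpa [h0] using this

variable {l : ℕ} (P : Fin l → ℤ[X])

/-- the averages tend to zero -/
def G (f : Fin l → Tor D → ℂ) : Prop :=
  Tendsto (fun N => eLpNorm (avg S.T P f N) 2 (haar D)) atTop (𝓝 0)

lemma avg_update (f : Fin l → Tor D → ℂ) (j : Fin l) (h : Tor D → ℂ) (N : ℕ) :
    avg S.T P (Function.update f j h) N = (N : ℂ)⁻¹ • ∑ n ∈ Icc 1 N, fun x =>
      h ((S.T ^ (P j).eval (n : ℤ)) x) * ∏ i ∈ univ.erase j, f i ((S.T ^ (P i).eval (n : ℤ)) x) := by
  ext x
  simp only [avg, Pi.smul_apply, Finset.sum_apply, smul_eq_mul]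
  congr 1
  refine Finset.sum_congr rfl fun n _ => ?_
  rw [← Finset.mul_prod_erase _ _ (Finset.mem_univ j), Function.update_self]
  congr 1
  exact Finset.prod_congr rfl fun i hi => by rw [Function.update_of_ne (Finset.ne_of_mem_erase hi)]

lemma avg_meas {f : Fin l → Tor D → ℂ} (hf : ∀ i, MemLp (f i) ⊤ (haar D)) (N : ℕ) :
    AEStronglyMeasurable (avg S.T P f N) (haar D) :=
  (Finset.aestronglyMeasurable_fun_sum _ fun _ _ => Finset.aestronglyMeasurable_fun_prod _
    fun i _ => (hf i).1.comp_measurePreserving (S.mp_zpow _)).const_mul _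

lemma upd {f : Fin l → Tor D → ℂ} (hf : ∀ i, MemLp (f i) ⊤ (haar D)) (j : Fin l) {h : Tor D → ℂ}
    (hh : MemLp h ⊤ (haar D)) (i : Fin l) : MemLp (Function.update f j h i) ⊤ (haar D) := by
  by_cases e : i = j
  · subst e; rwa [Function.update_self]
  · rw [Function.update_of_ne e]; exact hf i

lemma bound {f : Fin l → Tor D → ℂ} (hf : ∀ i, MemLp (f i) ⊤ (haar D)) (j : Fin l) :
    ∃ C : ℝ≥0∞, C ≠ ⊤ ∧ ∀ h, MemLp h ⊤ (haar D) → ∀ N,
      eLpNorm (avg S.T P (Function.update f j h) N) 2 (haar D) ≤ C * eLpNorm h 2 (haar D) := by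
  refine ⟨∏ i ∈ univ.erase j, eLpNormEssSup (f i) (haar D),
    ENNReal.prod_ne_top fun i _ => by simpa using (hf i).2.ne, fun h hh N => ?_⟩
  rw [avg_update, eLpNorm_const_smul]
  refine (mul_le_mul_right ((eLpNorm_sum_le (fun n _ => ?_) one_le_two).trans
    (Finset.sum_le_card_nsmul _ _ ((∏ i ∈ univ.erase j, eLpNormEssSup (f i) (haar D)) *
      eLpNorm h 2 (haar D)) fun n _ => ?_)) _).trans ?_
  · exact (hh.1.comp_measurePreserving (S.mp_zpow _)).mul (Finset.aestronglyMeasurable_fun_prod _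
      fun i _ => (hf i).1.comp_measurePreserving (S.mp_zpow _))
  · rw [← eLpNorm_comp_measurePreserving hh.1 (S.mp_zpow ((P j).eval (n : ℤ)))]
    refine eLpNorm_le_mul_eLpNorm_of_ae_le_mul'' _ (hh.1.comp_measurePreserving (S.mp_zpow _)) ?_
    filter_upwards [ae_all_iff.mpr fun i => (S.mp_zpow ((P i).eval (n : ℤ))).quasiMeasurePreserving.ae
      (ae_le_eLpNormEssSup (f := f i))] with x hx
    rw [enorm_mul, mul_comm, enorm_eq_nnnorm, nnnorm_prod, ENNReal.ofNNReal_finsetProd]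
    exact mul_le_mul_left (Finset.prod_le_prod' fun i _ => hx i) _
  · rw [Nat.card_Icc, Nat.add_sub_cancel, nsmul_eq_mul, ← mul_assoc]
    refine mul_le_of_le_one_left' ?_
    rw [← ofReal_norm, ← ENNReal.ofReal_natCast, ← ENNReal.ofReal_mul (norm_nonneg _), norm_inv,
      Complex.norm_natCast]
    exact ENNReal.ofReal_le_one.mpr inv_mul_le_one

lemma G_sum {f : Fin l → Tor D → ℂ} (hf : ∀ i, MemLp (f i) ⊤ (haar D)) (j : Fin l) {ι : Type*}
    (s : Finset ι) (c : ι → ℂ) (h : ι → Tor D → ℂ) (hh : ∀ v, MemLp (h v) ⊤ (haar D))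
    (hG : ∀ v, c v ≠ 0 → S.G P (Function.update f j (h v))) :
    S.G P (Function.update f j (∑ v ∈ s, c v • h v)) := by
  have e : ∀ N, avg S.T P (Function.update f j (∑ v ∈ s, c v • h v)) N =
      ∑ v ∈ s, c v • avg S.T P (Function.update f j (h v)) N := fun N => by
    simp only [avg_update]
    ext x
    simp only [Pi.smul_apply, Finset.sum_apply, smul_eq_mul, Finset.sum_mul, Finset.mul_sum]
    rw [Finset.sum_comm]
    exact Finset.sum_congr rfl fun _ _ => Finset.sum_congr rfl fun _ _ => by ring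
  have := tendsto_finsetSum s (f := fun v N => eLpNorm (c v • avg S.T P (Function.update f j (h v)) N)
    2 (haar D)) (a := fun _ => 0) (x := atTop) fun v _ => by
      by_cases e : c v = 0
      · simp [e]
      · simpa only [eLpNorm_const_smul, mul_zero] using
          ENNReal.Tendsto.const_mul (a := ‖c v‖ₑ) (hG v e) (Or.inr enorm_ne_top)
  rw [Finset.sum_const_zero] at this
  refine tendsto_of_tendsto_of_tendsto_of_le_of_le tendsto_const_nhds this (fun _ => zero_le)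
    fun N => ?_
  simp only [e]
  exact eLpNorm_sum_le (fun v _ => (S.avg_meas P (upd hf j (hh v)) N).const_smul _) one_le_two

lemma avg_add (f : Fin l → Tor D → ℂ) (j : Fin l) (g h : Tor D → ℂ) (N : ℕ) :
    avg S.T P (Function.update f j (g + h)) N =
      avg S.T P (Function.update f j g) N + avg S.T P (Function.update f j h) N := by
  simp only [avg_update, ← smul_add, ← Finset.sum_add_distrib]
  congr 2
  ext n x
  simp [add_mul]

open UnitAddTorus in
lemma slot {f : Fin l → Tor D → ℂ} (hf : ∀ i, MemLp (f i) ⊤ (haar D)) (j : Fin l)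
    (hG : ∀ v, mFourierCoeff (f j) v ≠ 0 → S.G P (Function.update f j (mFourier v))) : S.G P f := by
  obtain ⟨C, hC, hb⟩ := S.bound P hf j
  have h2 : MemLp (f j) 2 (haar D) := (hf j).mono_exponent le_top
  have hχ : ∀ v : Fin D → ℤ, MemLp (mFourier v : Tor D → ℂ) ⊤ (haar D) := fun v =>
    memLp_top_of_bound (mFourier v).continuous.aestronglyMeasurable _
      (ae_of_all _ fun x => (mFourier v).norm_coe_le_norm x)
  have ec : ∀ v, mFourierCoeff (h2.toLp _ : Tor D → ℂ) v = mFourierCoeff (f j) v := fun v =>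
    integral_congr_ae (h2.coeFn_toLp.mono fun x hx => by simp only [hx])
  have t1 := (Lp.tendsto_Lp_iff_tendsto_eLpNorm' _ _).mp (hasSum_mFourier_series_L2 (h2.toLp _))
  have t2 : Tendsto (fun s : Finset (Fin D → ℤ) => eLpNorm
      (f j - ∑ v ∈ s, mFourierCoeff (f j) v • (mFourier v : Tor D → ℂ)) 2 (haar D)) atTop (𝓝 0) := by
    refine (show Tendsto _ atTop _ from t1).congr fun s => ?_
    rw [eLpNorm_sub_comm]
    refine eLpNorm_congr_ae ?_
    filter_upwards [h2.coeFn_toLp, Lp.coeFn_fun_finsetSum s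
      (fun v => mFourierCoeff (h2.toLp _ : Tor D → ℂ) v • mFourierLp 2 v),
      ae_all_iff.mpr fun v => Lp.coeFn_smul (mFourierCoeff (h2.toLp _ : Tor D → ℂ) v)
        (mFourierLp (d := Fin D) 2 v), ae_all_iff.mpr fun v => coeFn_mFourierLp (d := Fin D) 2 v]
      with x a1 a2 a3 a4
    simp only [Pi.sub_apply, Finset.sum_apply, Pi.smul_apply]
    refine congrArg₂ (· - ·) a1 (a2.trans (Finset.sum_congr rfl fun v _ => (a3 v).trans ?_))
    rw [Pi.smul_apply, a4, ec]
  have t3 := ENNReal.Tendsto.const_mul (a := C) t2 (Or.inr hC)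
  rw [mul_zero, ENNReal.tendsto_nhds_zero] at t3
  rw [G, ENNReal.tendsto_nhds_zero]
  intro ε hε
  obtain ⟨s, hs⟩ := (t3 (ε / 2) (ENNReal.half_pos hε.ne')).exists
  have t4 := S.G_sum P hf j s (mFourierCoeff (f j)) (fun v => mFourier v) hχ hG
  have hm : MemLp (∑ v ∈ s, mFourierCoeff (f j) v • (mFourier v : Tor D → ℂ)) ⊤ (haar D) :=
    memLp_finsetSum' _ fun v _ => (hχ v).const_smul _
  filter_upwards [ENNReal.tendsto_nhds_zero.mp t4 (ε / 2) (ENNReal.half_pos hε.ne')] with N hN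
  have e := S.avg_add P f j (f j - ∑ v ∈ s, mFourierCoeff (f j) v • (mFourier v : Tor D → ℂ))
    (∑ v ∈ s, mFourierCoeff (f j) v • (mFourier v : Tor D → ℂ)) N
  rw [sub_add_cancel, Function.update_eq_self] at e
  rw [e, ← ENNReal.add_halves ε]
  exact (eLpNorm_add_le (S.avg_meas P (upd hf j ((hf j).sub hm)) N) (S.avg_meas P (upd hf j hm) N)
    one_le_two).trans (add_le_add ((hb _ ((hf j).sub hm) N).trans hs) hN)

end Sys

/-- integer frequency -/
def io (v : Fin D → ℤ) : W D := (fun i => v i, 0)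

lemma io_lat (v : Fin D → ℤ) : io v ∈ Lat D := fun i => ⟨v i, rfl⟩

lemma chi_io (v : Fin D → ℤ) : chi (io v) = UnitAddTorus.mFourier v := by
  ext x; simp [chi, io, ee_zero]

open UnitAddTorus in
lemma coef_io (v : Fin D → ℤ) (f : Tor D → ℂ) : coef (io v) f = mFourierCoeff f v := by
  simp only [coef, chi_io, mFourierCoeff, mFourier_neg, smul_eq_mul, mul_comm]
  rfl

open UnitAddTorus in
lemma coef_chr (v w : Fin D → ℤ) :
    mFourierCoeff (mFourier v : Tor D → ℂ) w = if w = v then 1 else 0 := by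
  rw [← mFourierCoeff_toLp, ← mFourierBasis_repr, ← orthonormal_iff_ite.mp orthonormal_mFourier w v,
    HilbertBasis.repr_apply_apply, coe_mFourierBasis]

open UnitAddTorus in
theorem Sys.main (S : Sys D) {d : ℕ} (P : Fin (d + 1 + 1) → ℤ[X]) (h1 : ∀ i, 0 < (P i).natDegree)
    (h2 : ∀ i j, i ≠ j → 0 < (P i - P j).natDegree) (f : Fin (d + 1 + 1) → Tor D → ℂ)
    (hf : ∀ i, MemLp (f i) ⊤ (haar D)) (i : Fin (d + 1 + 1)) (h0 : hk S.T (d + 1) (f i) = 0) :
    S.G P f := by
  let B : (Fin D → ℤ) → Prop := fun v =>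
    (S.ν ^ (d + 1 + 1)) (io v) ∈ Submodule.span ℚ {((0, 1) : W D)}
  have key : ∀ J : Finset (Fin (d + 1 + 1)), ∀ f : Fin (d + 1 + 1) → Tor D → ℂ,
      (∀ i, MemLp (f i) ⊤ (haar D)) → (∀ j ∉ J, ∃ v, f j = mFourier v) →
      (∀ v, B v → mFourierCoeff (f i) v = 0) → S.G P f := by
    intro J
    induction J using Finset.induction_on with
    | empty =>
      intro f _ a1 a2
      choose v hv using fun j => a1 j (by simp)
      have e : f = fun j => chi (io (v j)) := funext fun j => by rw [hv, chi_io]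
      by_cases hc : ∀ r, 0 < r →
        uu S.ν S.K P (fun j => io (v j)) r ∈ Submodule.span ℚ {((0, 1) : W D)}
      · have := a2 (v i) (case2 S.hτ S.hν _ S.he P h1 h2 _ hc i)
        rw [hv, coef_chr, if_pos rfl] at this
        exact absurd this one_ne_zero
      · push Not at hc
        obtain ⟨r, hr, hc⟩ := hc
        rw [e]
        exact S.case1 P _ (fun j => io_lat _) r hr hc
    | insert j J hj ih =>
      intro f hf a1 a2
      refine S.slot P hf j fun v hv => ih _ (Sys.upd hf j (chi_io v ▸ Lchi (io_lat v)))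
        (fun k hk => ?_) fun w hw => ?_
      · by_cases e : k = j
        · subst e; exact ⟨v, Function.update_self ..⟩
        · rw [Function.update_of_ne e]; exact a1 k (by simp [e, hk])
      · by_cases e : i = j
        · subst e
          rw [Function.update_self, coef_chr, if_neg]
          rintro rfl
          exact hv (a2 _ hw)
        · rw [Function.update_of_ne e]; exact a2 w hw
  exact key univ f hf (by simp) fun v hv => by
    rw [← coef_io]; exact S.coef_zero (io_lat v) hv (hf i) h0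

theorem Sys.tele (S : Sys D) {l : ℕ} (P : Fin l → ℤ[X]) (f g : Fin l → Tor D → ℂ)
    (hf : ∀ i, MemLp (f i) ⊤ (haar D)) (hg : ∀ i, MemLp (g i) ⊤ (haar D))
    (h : ∀ u : Fin l → Tor D → ℂ, (∀ i, MemLp (u i) ⊤ (haar D)) → ∀ j, u j = f j - g j → S.G P u) :
    Tendsto (fun N => eLpNorm (avg S.T P f N - avg S.T P g N) 2 (haar D)) atTop (𝓝 0) := by
  have key : ∀ J : Finset (Fin l), Tendsto (fun N => eLpNorm (avg S.T P f N -
      avg S.T P (J.piecewise g f) N) 2 (haar D)) atTop (𝓝 0) := by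
    intro J
    induction J using Finset.induction_on with
    | empty => simp
    | insert j J hj ih =>
      have hu : ∀ i, MemLp (J.piecewise g f i) ⊤ (haar D) := fun i => by
        by_cases e : i ∈ J
        · rw [Finset.piecewise_eq_of_mem _ _ _ e]; exact hg i
        · rw [Finset.piecewise_eq_of_notMem _ _ _ e]; exact hf i
      have hu' := Sys.upd hu j ((hf j).sub (hg j))
      have t := ih.add (h _ hu' j (Function.update_self ..))
      rw [add_zero] at t
      refine tendsto_of_tendsto_of_tendsto_of_le_of_le tendsto_const_nhds t (fun _ => zero_le)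
        fun N => ?_
      have e := S.avg_add P (J.piecewise g f) j (f j - g j) (g j) N
      rw [sub_add_cancel, ← Finset.piecewise_insert, ← Finset.piecewise_eq_of_notMem J g f hj,
        Function.update_eq_self, Finset.piecewise_eq_of_notMem J g f hj] at e
      refine le_trans (le_of_eq ?_) (eLpNorm_add_le ((S.avg_meas P hf N).sub (S.avg_meas P hu N))
        (S.avg_meas P hu' N) one_le_two)
      rw [e]; congr 1; abel
  simpa using key univ

end Pool.Agent.H.MP_467fc0_an
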